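import Mathlib

/-!
# Linear independence of the nested harmonic sums over the rational functions
-/

set_option autoImplicit false

namespace Pool.Agent.X90.DM

open Finset Filter Polynomial

/-! ### the pole lemma -/

/-- `T / Q` is regular at `j` -/
def Reg (T Q : ℂ[X]) (j : ℂ) : Prop := ∃ T' Q' : ℂ[X], Q'.eval j ≠ 0 ∧ T * Q' = T' * Q

lemma taylor_ne {Q : ℂ[X]} (hQ : Q ≠ 0) (r : ℂ) : taylor r Q ≠ 0 := by
  intro h
  apply hQ
  apply taylor_injective r
  rw [h, map_zero]

lemma reg_down {T Q S : ℂ[X]} {A : ℕ} (hQ : Q ≠ 0)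
    (h : X ^ A * (Q * taylor 1 T - taylor 1 Q * T) + Q * taylor 1 Q * S = 0) {T' Q' : ℂ[X]}
    (h1 : T * Q' = T' * Q) : T * (X ^ A * taylor 1 Q') = (X ^ A * taylor 1 T' + S * taylor 1 Q') * Q := by
  have h2 : taylor 1 T * taylor 1 Q' = taylor 1 T' * taylor 1 Q := by
    rw [← taylor_mul, ← taylor_mul, h1]
  have h3 : taylor 1 Q * (T * (X ^ A * taylor 1 Q')) =
      taylor 1 Q * ((X ^ A * taylor 1 T' + S * taylor 1 Q') * Q) := by
    linear_combination (-taylor 1 Q') * h + X ^ A * Q * h2
  exact mul_left_cancel₀ (taylor_ne hQ 1) h3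

lemma reg_step_down {T Q S : ℂ[X]} {A : ℕ} (hQ : Q ≠ 0)
    (h : X ^ A * (Q * taylor 1 T - taylor 1 Q * T) + Q * taylor 1 Q * S = 0) {j : ℂ} (hj : j ≠ 0)
    (hr : Reg T Q (j + 1)) : Reg T Q j := by
  obtain ⟨T', Q', h0, h1⟩ := hr
  refine ⟨_, _, ?_, reg_down hQ h h1⟩
  rw [eval_mul, eval_pow, eval_X, taylor_eval]
  exact mul_ne_zero (pow_ne_zero _ hj) h0

lemma reg_step_up {T Q S : ℂ[X]} {A : ℕ} (hQ : Q ≠ 0)
    (h : X ^ A * (Q * taylor 1 T - taylor 1 Q * T) + Q * taylor 1 Q * S = 0) {j : ℂ} (hj : j ≠ 0)
    (hr : Reg T Q j) : Reg T Q (j + 1) := by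
  obtain ⟨T', Q', h0, h1⟩ := hr
  have h2 : taylor 1 T * (X ^ A * Q') = (X ^ A * T' - S * Q') * taylor 1 Q := by
    have h3 : Q * (taylor 1 T * (X ^ A * Q')) = Q * ((X ^ A * T' - S * Q') * taylor 1 Q) := by
      linear_combination Q' * h + X ^ A * taylor 1 Q * h1
    exact mul_left_cancel₀ hQ h3
  have h4 : ∀ P : ℂ[X], taylor (-1) (taylor 1 P) = P := by
    intro P
    rw [taylor_taylor, neg_add_cancel, taylor_zero]
  refine ⟨taylor (-1) (X ^ A * T' - S * Q'), taylor (-1) (X ^ A * Q'), ?_, ?_⟩
  · rw [taylor_eval, eval_mul, eval_pow, eval_X]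
    rw [add_neg_cancel_right]
    exact mul_ne_zero (pow_ne_zero _ hj) h0
  · have h5 := congrArg (taylor (-1)) h2
    simp only [taylor_mul, h4] at h5 ⊢
    exact h5

lemma exists_nonroot {Q : ℂ[X]} (hQ : Q ≠ 0) (f : ℕ → ℂ) (hf : Function.Injective f) :
    ∃ J : ℕ, Q.eval (f J) ≠ 0 := by
  by_contra hcon
  push Not at hcon
  exact hQ (Polynomial.eq_zero_of_infinite_isRoot Q
    ((Set.infinite_range_of_injective hf).mono (by rintro _ ⟨J, rfl⟩; exact hcon J)))

lemma pole {T Q S : ℂ[X]} {A : ℕ} (hQ : Q ≠ 0) (hS : S ≠ 0) (hd : S.natDegree < A)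
    (h : X ^ A * (Q * taylor 1 T - taylor 1 Q * T) + Q * taylor 1 Q * S = 0) : False := by
  have hreg : ∀ j : ℂ, Q.eval j ≠ 0 → Reg T Q j := fun j hj => ⟨T, Q, hj, rfl⟩
  -- regular at 1
  have h1 : Reg T Q 1 := by
    obtain ⟨J, hJ⟩ := exists_nonroot hQ (fun J : ℕ => (J : ℂ) + 1) (fun a b hab => by simpa using hab)
    have h2 : ∀ i : ℕ, Reg T Q ((i : ℂ) + 1) → Reg T Q 1 := by
      intro i
      induction i with
      | zero => intro hi; simpa using hi
      | succ i ih =>
        intro hi
        refine ih (reg_step_down hQ h ?_ ?_)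
        · exact_mod_cast Nat.succ_ne_zero i
        · push_cast at hi
          exact hi
    exact h2 J (hreg _ hJ)
  -- regular at 0
  have h0 : Reg T Q 0 := by
    obtain ⟨J, hJ⟩ := exists_nonroot hQ (fun J : ℕ => -(J : ℂ)) (fun a b hab => by simpa using hab)
    have h2 : ∀ i : ℕ, Reg T Q (-(i : ℂ)) → Reg T Q 0 := by
      intro i
      induction i with
      | zero => intro hi; simpa using hi
      | succ i ih =>
        intro hi
        refine ih ?_
        have h3 := reg_step_up hQ h (j := -((i + 1 : ℕ) : ℂ)) (neg_ne_zero.2 (by exact_mod_cast Nat.succ_ne_zero i)) hi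
        have h4 : -((i + 1 : ℕ) : ℂ) + 1 = -(i : ℂ) := by push_cast; ring
        rwa [h4] at h3
    exact h2 J (hreg _ hJ)
  obtain ⟨T1, Q1, hq1, e1⟩ := h1
  obtain ⟨T0, Q0, hq0, e0⟩ := h0
  have e2 := reg_down hQ h e1
  have e3 : T0 * (X ^ A * taylor 1 Q1) = Q0 * (X ^ A * taylor 1 T1 + S * taylor 1 Q1) := by
    have e4 : Q * (T0 * (X ^ A * taylor 1 Q1)) = Q * (Q0 * (X ^ A * taylor 1 T1 + S * taylor 1 Q1)) := by
      linear_combination Q0 * e2 - (X ^ A * taylor 1 Q1) * e0
    exact mul_left_cancel₀ hQ e4
  have hdiv : (X : ℂ[X]) ^ A ∣ (Q0 * taylor 1 Q1) * S :=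
    ⟨T0 * taylor 1 Q1 - Q0 * taylor 1 T1, by linear_combination -e3⟩
  have hnd : ¬ (X : ℂ[X]) ∣ Q0 * taylor 1 Q1 := by
    rw [X_dvd_iff, coeff_zero_eq_eval_zero, eval_mul, taylor_eval, zero_add]
    exact mul_ne_zero hq0 hq1
  have h5 := Polynomial.prime_X.pow_dvd_of_dvd_mul_left A hnd hdiv
  have h6 := natDegree_le_of_dvd h5 hS
  rw [natDegree_X_pow] at h6
  omega

lemma periodic {P Q : ℂ[X]} (hQ : Q ≠ 0) (h : Q * taylor 1 P = taylor 1 Q * P) : ∃ c : ℂ, P = C c * Q := by
  obtain ⟨m0, hm0⟩ : ∃ m0 : ℕ, ∀ m, m0 ≤ m → Q.eval (m : ℂ) ≠ 0 := by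
    have h1 : {z : ℂ | Q.IsRoot z}.Finite := Polynomial.finite_setOfPred_isRoot hQ
    have h2 : {m : ℕ | Q.IsRoot (m : ℂ)}.Finite := h1.preimage (Nat.cast_injective.injOn)
    obtain ⟨b, hb⟩ := h2.bddAbove
    refine ⟨b + 1, fun m hm hr => ?_⟩
    have := hb (show m ∈ {m : ℕ | Q.IsRoot (m : ℂ)} from hr)
    omega
  refine ⟨P.eval (m0 : ℂ) / Q.eval (m0 : ℂ), ?_⟩
  set c := P.eval (m0 : ℂ) / Q.eval (m0 : ℂ) with hc
  have h1 : ∀ i : ℕ, P.eval ((m0 + i : ℕ) : ℂ) = c * Q.eval ((m0 + i : ℕ) : ℂ) := by
    intro i
    induction i with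
    | zero =>
      rw [Nat.add_zero, hc, div_mul_cancel₀ _ (hm0 m0 le_rfl)]
    | succ i ih =>
      have h2 := congrArg (eval ((m0 + i : ℕ) : ℂ)) h
      rw [eval_mul, eval_mul, taylor_eval, taylor_eval, ih] at h2
      have h3 : ((m0 + (i + 1) : ℕ) : ℂ) = ((m0 + i : ℕ) : ℂ) + 1 := by push_cast; ring
      rw [h3]
      refine mul_left_cancel₀ (hm0 (m0 + i) (by omega)) ?_
      linear_combination h2
  have h2 : P - C c * Q = 0 := by
    refine Polynomial.eq_zero_of_infinite_isRoot _ ?_
    have hinj : Function.Injective fun i : ℕ => ((m0 + i : ℕ) : ℂ) := by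
      intro a b hab
      have h4 : ((m0 + a : ℕ) : ℂ) = ((m0 + b : ℕ) : ℂ) := hab
      have : m0 + a = m0 + b := by exact_mod_cast h4
      omega
    refine (Set.infinite_range_of_injective hinj).mono ?_
    rintro _ ⟨i, rfl⟩
    show IsRoot _ _
    rw [IsRoot, eval_sub, eval_mul, eval_C, h1 i, sub_self]
  exact sub_eq_zero.1 h2

/-! ### the sums -/

/-- the nested harmonic sum -/
noncomputable def hs : List ℕ → ℕ → ℂ
  | [], _ => 1
  | a :: u, m => ∑ j ∈ Ico 1 m, 1 / (j : ℂ) ^ a * hs u j

lemma hs_succ (a : ℕ) (u : List ℕ) {m : ℕ} (hm : 1 ≤ m) :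
    hs (a :: u) (m + 1) = hs (a :: u) m + 1 / (m : ℂ) ^ a * hs u m := by
  rw [hs, hs, sum_Ico_succ_top hm]

lemma hs_step (w : List ℕ) {m : ℕ} (hm : 1 ≤ m) :
    hs w (m + 1) = hs w m + if w ≠ [] then 1 / (m : ℂ) ^ w.headI * hs w.tail m else 0 := by
  cases w with
  | nil => simp [hs]
  | cons a u =>
    rw [hs_succ a u hm, if_pos (List.cons_ne_nil _ _)]
    rfl

/-- the value -/
noncomputable def Ev (x : List ℕ →₀ ℂ[X]) (m : ℕ) : ℂ := ∑ w ∈ x.support, (x w).eval (m : ℂ) * hs w m

lemma Ev_eq (x : List ℕ →₀ ℂ[X]) (U : Finset (List ℕ)) (hU : x.support ⊆ U) (m : ℕ) :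
    Ev x m = ∑ w ∈ U, (x w).eval (m : ℂ) * hs w m := by
  rw [Ev]
  refine sum_subset hU fun w _ hw => ?_
  rw [Finsupp.notMem_support_iff.1 hw, eval_zero, zero_mul]

/-- the coefficients of the new relation -/
noncomputable def yf (x : List ℕ →₀ ℂ[X]) (A : ℕ) (Q : ℂ[X]) (w : List ℕ) : ℂ[X] :=
  X ^ A * (Q * taylor 1 (x w) - taylor 1 Q * x w) +
    ∑ v ∈ x.support, if v ≠ [] ∧ v.tail = w then X ^ (A - v.headI) * Q * taylor 1 (x v) else 0

lemma yf_out (x : List ℕ →₀ ℂ[X]) (A : ℕ) (Q : ℂ[X]) (w : List ℕ) (hw : w ∉ x.support)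
    (hw' : ∀ v ∈ x.support, v ≠ [] → v.tail ≠ w) : yf x A Q w = 0 := by
  rw [yf, Finsupp.notMem_support_iff.1 hw, map_zero, mul_zero, mul_zero, sub_zero, mul_zero, zero_add]
  exact sum_eq_zero fun v hv => if_neg fun h => hw' v hv h.1 h.2

lemma sum_yf (x : List ℕ →₀ ℂ[X]) (A : ℕ) (hA : ∀ v ∈ x.support, v.headI ≤ A) (Q : ℂ[X]) {m : ℕ}
    (hm : 1 ≤ m) :
    ∑ w ∈ x.support ∪ x.support.image List.tail, (yf x A Q w).eval (m : ℂ) * hs w m =
      (m : ℂ) ^ A * (Q.eval (m : ℂ) * Ev x (m + 1) - Q.eval ((m : ℂ) + 1) * Ev x m) := by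
  classical
  have hm0 : (m : ℂ) ≠ 0 := by exact_mod_cast (by omega : m ≠ 0)
  set U := x.support ∪ x.support.image List.tail with hU
  simp only [yf, eval_add, add_mul, sum_add_distrib]
  have h1 : ∑ w ∈ U, (X ^ A * (Q * taylor 1 (x w) - taylor 1 Q * x w)).eval (m : ℂ) * hs w m =
      ∑ w ∈ x.support, (m : ℂ) ^ A * (Q.eval (m : ℂ) * (x w).eval ((m : ℂ) + 1) -
        Q.eval ((m : ℂ) + 1) * (x w).eval (m : ℂ)) * hs w m := by
    symm
    refine (sum_congr rfl fun w _ => ?_).trans (sum_subset subset_union_left fun w _ hw => ?_)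
    · rw [eval_mul, eval_pow, eval_X, eval_sub, eval_mul, eval_mul, taylor_eval, taylor_eval]
    · rw [Finsupp.notMem_support_iff.1 hw]
      simp
  have h2 : ∑ w ∈ U, (∑ v ∈ x.support, if v ≠ [] ∧ v.tail = w then
      X ^ (A - v.headI) * Q * taylor 1 (x v) else 0 : ℂ[X]).eval (m : ℂ) * hs w m =
      ∑ v ∈ x.support, (x v).eval ((m : ℂ) + 1) * ((m : ℂ) ^ A * Q.eval (m : ℂ) *
        if v ≠ [] then 1 / (m : ℂ) ^ v.headI * hs v.tail m else 0) := by
    simp only [eval_finsetSum, sum_mul]
    rw [sum_comm]
    refine sum_congr rfl fun v hv => ?_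
    rw [sum_eq_single v.tail]
    · by_cases h : v = []
      · simp [h]
      · rw [if_pos ⟨h, rfl⟩, if_pos h, eval_mul, eval_mul, eval_pow, eval_X, taylor_eval]
        have h3 : (m : ℂ) ^ A = (m : ℂ) ^ (A - v.headI) * (m : ℂ) ^ v.headI := by
          rw [← pow_add, Nat.sub_add_cancel (hA v hv)]
        rw [h3]
        field_simp
    · intro w _ hw
      rw [if_neg fun h => hw h.2.symm]
      simp
    · intro h
      exact absurd (mem_union_right _ (mem_image_of_mem _ hv)) h
  rw [h1, h2, Ev, Ev]
  have h3 : ∀ w ∈ x.support, (x w).eval (((m + 1 : ℕ) : ℂ)) * hs w (m + 1) =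
      (x w).eval ((m : ℂ) + 1) * hs w m + (x w).eval ((m : ℂ) + 1) *
        (if w ≠ [] then 1 / (m : ℂ) ^ w.headI * hs w.tail m else 0) := by
    intro w _
    rw [hs_step w hm]
    push_cast
    ring
  rw [sum_congr rfl h3, sum_add_distrib, mul_sub, mul_add, mul_add, mul_sum, mul_sum, mul_sum, mul_sum,
    mul_sum, mul_sum, ← sum_add_distrib, ← sum_add_distrib, ← sum_sub_distrib]
  exact sum_congr rfl fun w _ => by ring

theorem hs_indep (n : ℕ) : ∀ x : List ℕ →₀ ℂ[X], (∀ w ∈ x.support, w.length < n) →
    (∀ w ∈ x.support, ∀ a ∈ w, 1 ≤ a) → (∀ᶠ m : ℕ in atTop, Ev x m = 0) → x = 0 := by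
  classical
  induction n with
  | zero =>
    intro x hx _ _
    rw [← Finsupp.support_eq_empty]
    refine eq_empty_of_forall_notMem fun w hw => ?_
    have := hx w hw
    omega
  | succ n ih =>
    rcases Nat.eq_zero_or_pos n with hn | hn
    · subst hn
      intro x hx _ hev
      have hsup : x.support ⊆ {[]} := by
        intro w hw
        rw [mem_singleton]
        exact List.eq_nil_of_length_eq_zero (by have := hx w hw; omega)
      have h1 : x [] = 0 := by
        obtain ⟨m0, hm0⟩ := eventually_atTop.1 hev
        refine Polynomial.eq_zero_of_infinite_isRoot _ ?_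
        have hinj : Function.Injective fun i : ℕ => ((m0 + i : ℕ) : ℂ) := by
          intro a b hab
          have h4 : ((m0 + a : ℕ) : ℂ) = ((m0 + b : ℕ) : ℂ) := hab
          have : m0 + a = m0 + b := by exact_mod_cast h4
          omega
        refine (Set.infinite_range_of_injective hinj).mono ?_
        rintro _ ⟨i, rfl⟩
        show IsRoot _ _
        have h2 := hm0 (m0 + i) (by omega)
        rw [Ev_eq x _ hsup, sum_singleton, hs, mul_one] at h2
        exact h2
      ext1 w
      by_cases hw : w ∈ x.support
      · rw [mem_singleton.1 (hsup hw), h1]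
        rfl
      · rw [Finsupp.notMem_support_iff.1 hw]
        rfl
    · have hk : ∀ k : ℕ, ∀ x : List ℕ →₀ ℂ[X], (∀ w ∈ x.support, w.length < n + 1) →
          (∀ w ∈ x.support, ∀ a ∈ w, 1 ≤ a) → (∀ᶠ m : ℕ in atTop, Ev x m = 0) →
          (x.support.filter fun w => w.length = n).card ≤ k → x = 0 := by
        intro k
        induction k with
        | zero =>
          intro x hx hpos hev hc
          refine ih x (fun w hw => ?_) hpos hev
          have h1 := hx w hw
          have h2 : w.length ≠ n := fun h => by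
            have h3 : w ∈ x.support.filter fun w => w.length = n := mem_filter.2 ⟨hw, h⟩
            have := card_pos.2 ⟨w, h3⟩
            omega
          omega
        | succ k ihk =>
          intro x hx hpos hev hc
          by_cases htop : ∃ v ∈ x.support, v.length = n
          swap
          · push Not at htop
            exact ih x (fun w hw => by have := hx w hw; have := htop w hw; omega) hpos hev
          exfalso
          obtain ⟨v0, hv0, hv0n⟩ := htop
          set Q := x v0 with hQ
          have hQ0 : Q ≠ 0 := Finsupp.mem_support_iff.1 hv0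
          set A : ℕ := 1 + ∑ v ∈ x.support, v.headI with hA
          have hAv : ∀ v ∈ x.support, v.headI < A := by
            intro v hv
            have := single_le_sum (f := fun v : List ℕ => v.headI) (fun _ _ => Nat.zero_le _) hv
            omega
          set U := x.support ∪ x.support.image List.tail with hU
          have hout : ∀ w, yf x A Q w ≠ 0 → w ∈ U := by
            intro w hw
            by_contra hcon
            rw [hU, mem_union, not_or] at hcon
            exact hw (yf_out x A Q w hcon.1 fun v hv _ h =>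
              hcon.2 (mem_image.2 ⟨v, hv, h⟩))
          set y : List ℕ →₀ ℂ[X] := Finsupp.onFinset U (yf x A Q) hout with hy
          have hyw : ∀ w, y w = yf x A Q w := fun w => Finsupp.onFinset_apply
          have hysup : y.support ⊆ U := Finsupp.support_onFinset_subset
          have hyev : ∀ᶠ m : ℕ in atTop, Ev y m = 0 := by
            have h1 : ∀ᶠ m : ℕ in atTop, Ev x (m + 1) = 0 := (tendsto_add_atTop_nat 1).eventually hev
            filter_upwards [hev, h1, eventually_ge_atTop 1] with m h2 h3 h4
            rw [Ev_eq y U hysup]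
            simp only [hyw]
            rw [sum_yf x A (fun v hv => (hAv v hv).le) Q h4, h2, h3]
            ring
          -- the top words
          have htopw : ∀ w, w.length = n → yf x A Q w =
              X ^ A * (Q * taylor 1 (x w) - taylor 1 Q * x w) := by
            intro w hw
            rw [yf, add_eq_left]
            refine sum_eq_zero fun v hv => if_neg fun h => ?_
            have h1 := hx v hv
            have h2 := List.length_tail (l := v)
            rw [h.2, hw] at h2
            omega
          have hy0 : y = 0 := by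
            refine ihk y (fun w hw => ?_) (fun w hw a ha => ?_) hyev ?_
            · rcases mem_union.1 (hysup hw) with h | h
              · exact hx w h
              · obtain ⟨v, hv, rfl⟩ := mem_image.1 h
                have := hx v hv
                rw [List.length_tail]
                omega
            · rcases mem_union.1 (hysup hw) with h | h
              · exact hpos w h a ha
              · obtain ⟨v, hv, rfl⟩ := mem_image.1 h
                exact hpos v hv a (List.mem_of_mem_tail ha)
            · have hsub : (y.support.filter fun w => w.length = n) ⊆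
                  (x.support.filter fun w => w.length = n).erase v0 := by
                intro w hw
                rw [mem_filter] at hw
                obtain ⟨h1, h2⟩ := hw
                rw [Finsupp.mem_support_iff, hyw, htopw w h2] at h1
                rw [mem_erase, mem_filter, Finsupp.mem_support_iff]
                refine ⟨?_, ?_, h2⟩
                · rintro rfl
                  apply h1
                  rw [← hQ, mul_comm Q, sub_self, mul_zero]
                · intro h3
                  apply h1
                  rw [h3, map_zero, mul_zero, mul_zero, sub_zero, mul_zero]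
              have h3 := card_le_card hsub
              rw [card_erase_of_mem (mem_filter.2 ⟨hv0, hv0n⟩)] at h3
              omega
          have hyz : ∀ w, yf x A Q w = 0 := fun w => by rw [← hyw, hy0]; rfl
          have hX : (X : ℂ[X]) ^ A ≠ 0 := pow_ne_zero _ X_ne_zero
          have hper : ∀ v, v.length = n → ∃ c : ℂ, x v = C c * Q := by
            intro v hv
            have h1 := hyz v
            rw [htopw v hv] at h1
            exact periodic hQ0 (sub_eq_zero.1 ((mul_eq_zero.1 h1).resolve_left hX))
          choose! c hc' using hper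
          set t0 := v0.tail with ht0
          have hv0ne : v0 ≠ [] := by
            rintro rfl
            simp at hv0n
            omega
          set V := x.support.filter fun v => v ≠ [] ∧ v.tail = t0 with hV
          have hVlen : ∀ v ∈ V, v.length = n := by
            intro v hv
            rw [hV, mem_filter] at hv
            obtain ⟨_, h1, h2⟩ := hv
            have h3 := List.length_tail (l := v)
            have h4 := List.length_tail (l := v0)
            rw [h2, ht0, h4] at h3
            have h5 := List.length_pos_iff.2 h1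
            have h6 := List.length_pos_iff.2 hv0ne
            omega
          set S : ℂ[X] := ∑ v ∈ V, C (c v) * X ^ (A - v.headI) with hS
          have hv0V : v0 ∈ V := mem_filter.2 ⟨hv0, hv0ne, rfl⟩
          have hhead : ∀ v ∈ V, 1 ≤ v.headI := by
            intro v hv
            rw [hV, mem_filter] at hv
            obtain ⟨h1, h2, _⟩ := hv
            cases v with
            | nil => exact absurd rfl h2
            | cons a u => exact hpos _ h1 a List.mem_cons_self
          have hc0 : c v0 = 1 := by
            have h1 := hc' v0 hv0n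
            rw [← hQ] at h1
            have h2 : (C (c v0) - 1) * Q = 0 := by linear_combination -h1
            have h3 := (mul_eq_zero.1 h2).resolve_right hQ0
            have h4 : C (c v0) = C 1 := by rw [C_1]; exact sub_eq_zero.1 h3
            exact C_injective h4
          have hS0 : S ≠ 0 := by
            intro h1
            have h2 := congrArg (fun P : ℂ[X] => P.coeff (A - v0.headI)) h1
            simp only [hS, finsetSum_coeff, coeff_C_mul, coeff_X_pow, coeff_zero] at h2
            rw [sum_eq_single v0] at h2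
            · simp [hc0] at h2
            · intro v hv hne
              rw [if_neg, mul_zero]
              intro h3
              apply hne
              have h4 := hAv v (mem_filter.1 hv).1
              have h5 := hAv v0 hv0
              have h6 : v.headI = v0.headI := by omega
              have h7 := (mem_filter.1 hv).2
              cases v with
              | nil => exact absurd rfl h7.1
              | cons a u =>
                cases v0 with
                | nil => exact absurd rfl hv0ne
                | cons a0 u0 =>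
                  have e1 : a = a0 := h6
                  have e2 : u = u0 := h7.2
                  rw [e1, e2]
            · intro h
              exact absurd hv0V h
          have hSd : S.natDegree < A := by
            have h1 : S.natDegree ≤ A - 1 := by
              refine natDegree_sum_le_of_forall_le _ _ fun v hv => ?_
              refine (natDegree_C_mul_X_pow_le _ _).trans ?_
              have := hhead v hv
              omega
            omega
          refine pole (T := x t0) hQ0 hS0 hSd ?_
          have h1 := hyz t0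
          rw [yf] at h1
          have h2 : (∑ v ∈ x.support, if v ≠ [] ∧ v.tail = t0 then
              X ^ (A - v.headI) * Q * taylor 1 (x v) else 0 : ℂ[X]) = Q * taylor 1 Q * S := by
            rw [← sum_filter, ← hV, hS, mul_sum]
            refine sum_congr rfl fun v hv => ?_
            rw [hc' v (hVlen v hv), taylor_mul, taylor_C]
            ring
          rw [h2] at h1
          exact h1
      intro x hx hpos hev
      exact hk _ x hx hpos hev le_rfl

end Pool.Agent.X90.DM
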