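import Pool.Agent.X90.DM.Wrd
import Pool.Agent.X90.DM.Hs
import Pool.Agent.X90.DE.Cmp

/-!
# Linear relations between the values `Li_{w - |u|, u}(z, 1, ..., 1)` of weight `w`
-/

set_option autoImplicit false

namespace Pool.Agent.X90.DM

open Finset Filter
open Pool.Agent.X90.DE (rs mem_rs)

/-- the nested harmonic sum, rational -/
def hq : List ℕ → ℕ → ℚ
  | [], _ => 1
  | a :: u, m => ∑ j ∈ Ico 1 m, 1 / (j : ℚ) ^ a * hq u j

lemma hq_cast (u : List ℕ) : ∀ m, ((hq u m : ℚ) : ℂ) = hs u m := by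
  induction u with
  | nil => intro m; simp [hq, hs]
  | cons a u ih =>
    intro m
    rw [hq, hs]
    push_cast
    exact sum_congr rfl fun j _ => by rw [ih]

lemma hq_nonneg (u : List ℕ) : ∀ m, 0 ≤ hq u m := by
  induction u with
  | nil => intro m; rw [hq]; exact zero_le_one
  | cons a u ih =>
    intro m
    rw [hq]
    exact sum_nonneg fun j _ => mul_nonneg (by positivity) (ih j)

lemma hq_le (u : List ℕ) : ∀ m, hq u m ≤ (m : ℚ) ^ u.length := by
  induction u with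
  | nil => intro m; rw [hq, List.length_nil, pow_zero]
  | cons a u ih =>
    intro m
    rw [hq]
    calc ∑ j ∈ Ico 1 m, 1 / (j : ℚ) ^ a * hq u j ≤ ∑ _j ∈ Ico 1 m, (m : ℚ) ^ u.length := by
          refine sum_le_sum fun j hj => ?_
          obtain ⟨h1, h2⟩ := mem_Ico.1 hj
          have h3 : 1 / (j : ℚ) ^ a ≤ 1 := by
            have h4 : (1 : ℚ) ≤ (j : ℚ) ^ a := one_le_pow₀ (by exact_mod_cast h1)
            rw [div_le_one (by linarith)]
            exact h4
          calc 1 / (j : ℚ) ^ a * hq u j ≤ 1 * (j : ℚ) ^ u.length :=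
                mul_le_mul h3 (ih j) (hq_nonneg u j) zero_le_one
            _ ≤ (m : ℚ) ^ u.length := by
                rw [one_mul]
                exact pow_le_pow_left₀ (by positivity) (by exact_mod_cast h2.le) _
      _ ≤ (m : ℚ) ^ (a :: u).length := by
          rw [sum_const, nsmul_eq_mul, Nat.card_Ico, List.length_cons, pow_succ, mul_comm]
          refine mul_le_mul_of_nonneg_left ?_ (by positivity)
          exact_mod_cast Nat.sub_le _ _

/-- twice the real part of a sixth root of unity -/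
lemma two_re {y : ℂ} (hy : y ^ 6 = 1) : ∃ χ : ℤ, (χ : ℝ) = 2 * y.re ∧ χ ≠ 0 ∧ |χ| ≤ 2 := by
  have hn : ‖y‖ = 1 := by
    have h1 : ‖y‖ ^ 6 = 1 := by rw [← norm_pow, hy, norm_one]
    exact (pow_eq_one_iff_of_nonneg (norm_nonneg _) (by norm_num)).1 h1
  have hc : y * (starRingEnd ℂ) y = 1 := by
    rw [Complex.mul_conj, Complex.normSq_eq_norm_sq, hn]
    norm_num
  have hadd : y + (starRingEnd ℂ) y = ((2 * y.re : ℝ) : ℂ) := by
    rw [Complex.add_conj]
  have h1 : (y - 1) * (y + 1) * (y ^ 2 + y + 1) * (y ^ 2 - y + 1) = 0 := by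
    linear_combination hy
  have hy0 : y ≠ 0 := by
    rintro rfl
    simp at hy
  have key : ∀ χ : ℤ, y ^ 2 - χ * y + 1 = 0 → (χ : ℝ) = 2 * y.re := by
    intro χ h
    have h2 : y * (y + (starRingEnd ℂ) y - χ) = 0 := by linear_combination h + hc
    have h3 := (mul_eq_zero.1 h2).resolve_left hy0
    rw [hadd] at h3
    have h4 : ((2 * y.re : ℝ) : ℂ) = ((χ : ℝ) : ℂ) := by
      push_cast
      push_cast at h3
      linear_combination h3
    exact (Complex.ofReal_inj.1 h4).symm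
  rcases mul_eq_zero.1 h1 with h2 | h2
  · rcases mul_eq_zero.1 h2 with h3 | h3
    · rcases mul_eq_zero.1 h3 with h4 | h4
      · exact ⟨2, key 2 (by push_cast; linear_combination (y - 1) * h4), by norm_num, by norm_num⟩
      · exact ⟨-2, key (-2) (by push_cast; linear_combination (y + 1) * h4), by norm_num, by norm_num⟩
    · exact ⟨-1, key (-1) (by push_cast; linear_combination h3), by norm_num, by norm_num⟩
  · exact ⟨1, key 1 (by push_cast; linear_combination h2), by norm_num, by norm_num⟩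

/-- the multiple polylogarithm `Li_{e, u}(z, 1, ..., 1)` -/
noncomputable def mu (z : ℂ) (e : ℕ) (u : List ℕ) : ℂ :=
  ∑' n : ℕ, z ^ (n + 1) / ((n + 1 : ℕ) : ℂ) ^ e * hs u (n + 1)

lemma len_le_sum {u : List ℕ} (hu : ∀ t ∈ u, 1 ≤ t) : u.length ≤ u.sum := by
  induction u with
  | nil => simp
  | cons a u ih =>
    have h1 := ih fun t ht => hu t (List.mem_cons_of_mem _ ht)
    have h2 := hu a List.mem_cons_self
    rw [List.length_cons, List.sum_cons]
    omega

lemma summ_mu {z : ℂ} (hz : ‖z‖ ≤ 1) {e : ℕ} {u : List ℕ} (he : u.length + 2 ≤ e) :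
    Summable fun n : ℕ => z ^ (n + 1) / ((n + 1 : ℕ) : ℂ) ^ e * hs u (n + 1) := by
  have h0 : Summable fun n : ℕ => 1 / ((n : ℝ) + 1) ^ 2 := by
    have h1 := (summable_nat_add_iff 1).2 (Real.summable_one_div_nat_pow.2 (by norm_num : 1 < 2))
    refine h1.congr fun n => ?_
    push_cast
    rfl
  refine Summable.of_norm_bounded h0 fun n => ?_
  have hn : (0 : ℝ) < (n : ℝ) + 1 := by positivity
  have h1 : ‖hs u (n + 1)‖ ≤ ((n : ℝ) + 1) ^ u.length := by
    rw [← hq_cast, Complex.norm_ratCast, abs_of_nonneg (by exact_mod_cast hq_nonneg u _)]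
    have h2 := hq_le u (n + 1)
    have h3 : ((hq u (n + 1) : ℚ) : ℝ) ≤ (((((n + 1 : ℕ) : ℚ) ^ u.length : ℚ)) : ℝ) := by exact_mod_cast h2
    push_cast at h3
    exact h3
  rw [norm_mul, norm_div, norm_pow, norm_pow, Complex.norm_natCast]
  push_cast
  calc ‖z‖ ^ (n + 1) / ((n : ℝ) + 1) ^ e * ‖hs u (n + 1)‖ ≤
      1 / ((n : ℝ) + 1) ^ e * ((n : ℝ) + 1) ^ u.length := by
        refine mul_le_mul (div_le_div_of_nonneg_right (pow_le_one₀ (norm_nonneg _) hz) (by positivity))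
          h1 (norm_nonneg _) (by positivity)
    _ = 1 / ((n : ℝ) + 1) ^ (e - u.length) := by
        have h4 : ((n : ℝ) + 1) ^ e = ((n : ℝ) + 1) ^ (e - u.length) * ((n : ℝ) + 1) ^ u.length := by
          rw [← pow_add]
          congr 1
          omega
        rw [h4]
        field_simp
    _ ≤ 1 / ((n : ℝ) + 1) ^ 2 := by
        refine div_le_div_of_nonneg_left zero_le_one (by positivity) ?_
        exact pow_le_pow_right₀ (by linarith [(Nat.cast_nonneg n : (0 : ℝ) ≤ n)]) (by omega)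

/-- only the trivial formal relation -/
lemma formal (W : ℕ) (c : {u // u ∈ rs W} → ℂ)
    (h : ∀ m : ℕ, 1 ≤ m → ∑ u, c u * ((m : ℂ) ^ u.1.sum * hs u.1 m) = 0) : c = 0 := by
  classical
  set x : List ℕ →₀ Polynomial ℂ := ∑ u : {u // u ∈ rs W},
    Finsupp.single u.1 (Polynomial.C (c u) * Polynomial.X ^ u.1.sum) with hx
  have hxa : ∀ u : {u // u ∈ rs W}, x u.1 = Polynomial.C (c u) * Polynomial.X ^ u.1.sum := by
    intro u
    rw [hx, Finsupp.finsetSum_apply, sum_eq_single u]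
    · rw [Finsupp.single_eq_same]
    · intro v _ hv
      rw [Finsupp.single_apply, if_neg fun h => hv (Subtype.ext h)]
    · intro h
      exact absurd (mem_univ _) h
  have hsup : x.support ⊆ rs W := by
    intro w hw
    by_contra hcon
    apply Finsupp.mem_support_iff.1 hw
    rw [hx, Finsupp.finsetSum_apply]
    refine sum_eq_zero fun u _ => ?_
    rw [Finsupp.single_apply, if_neg]
    intro h
    rw [← h] at hcon
    exact hcon u.2
  have h0 : x = 0 := by
    refine hs_indep (W + 1) x (fun w hw => ?_) (fun w hw => ((mem_rs.1 (hsup hw)).1)) ?_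
    · have h1 := mem_rs.1 (hsup hw)
      have h2 := len_le_sum h1.1
      omega
    · filter_upwards [eventually_ge_atTop 1] with m hm
      rw [Ev_eq x (rs W) hsup, ← sum_coe_sort (rs W), ← h m hm]
      refine sum_congr rfl fun u _ => ?_
      rw [hxa u, Polynomial.eval_mul, Polynomial.eval_C, Polynomial.eval_pow, Polynomial.eval_X]
      ring
  funext u
  have h1 := hxa u
  rw [h0, Finsupp.zero_apply] at h1
  have h2 := (mul_eq_zero.1 h1.symm).resolve_right (pow_ne_zero _ Polynomial.X_ne_zero)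
  exact Polynomial.C_eq_zero.1 h2

/-- **all weights** -/
theorem allw (W : ℕ) (z : ℂ) (hz : z ^ 6 = 1) : ∃ c : ℝ, 0 < c ∧ ∃ w0 : ℕ, ∀ w : ℕ, w0 ≤ w →
    ∀ a : List ℕ → ℤ, (∃ u ∈ rs W, a u ≠ 0) → (∀ u ∈ rs W, |(a u : ℝ)| ≤ Real.exp (c * w)) →
      ∑ u ∈ rs W, (a u : ℝ) * (mu z (w - u.sum) u).re ≠ 0 := by
  classical
  have hzn : ‖z‖ = 1 := by
    have h1 : ‖z‖ ^ 6 = 1 := by rw [← norm_pow, hz, norm_one]
    exact (pow_eq_one_iff_of_nonneg (norm_nonneg _) (by norm_num)).1 h1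
  have hχ : ∀ l : ℕ, ∃ χ : ℤ, (χ : ℝ) = 2 * (z ^ l).re ∧ χ ≠ 0 ∧ |χ| ≤ 2 := fun l =>
    two_re (by rw [← pow_mul, mul_comm, pow_mul, hz, one_pow])
  choose χ hχ1 hχ2 hχ3 using hχ
  set K := {u // u ∈ rs W} with hK
  set G : Fin 1 → K → ℕ → ℚ := fun _ u n => (χ (n + 1) : ℚ) * ((n : ℚ) + 1) ^ u.1.sum * hq u.1 (n + 1) with hG
  set σ : ℕ := 2 * W + 2 with hσ
  have hlen : ∀ u : K, u.1.length ≤ W ∧ u.1.sum ≤ W := by
    intro u
    have h1 := mem_rs.1 u.2
    exact ⟨(len_le_sum h1.1).trans h1.2, h1.2⟩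
  have hGS : ∀ i u, Sm σ (G i u) := by
    intro i u
    have h0 : Summable fun n : ℕ => 2 * (1 / ((n : ℝ) + 1) ^ 2) := by
      have h1 := (summable_nat_add_iff 1).2 (Real.summable_one_div_nat_pow.2 (by norm_num : 1 < 2))
      refine (h1.congr fun n => ?_).mul_left _
      push_cast
      rfl
    refine Summable.of_nonneg_of_le (fun n => by positivity) (fun n => ?_) h0
    have hn : (1 : ℝ) ≤ (n : ℝ) + 1 := by linarith [(Nat.cast_nonneg n : (0 : ℝ) ≤ n)]
    have h1 : |(G i u n : ℝ)| ≤ 2 * ((n : ℝ) + 1) ^ (2 * W) := by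
      rw [hG]
      push_cast
      rw [abs_mul, abs_mul]
      have h2 : |(χ (n + 1) : ℝ)| ≤ 2 := by exact_mod_cast hχ3 (n + 1)
      have h3 : |((n : ℝ) + 1) ^ u.1.sum| ≤ ((n : ℝ) + 1) ^ W := by
        rw [abs_of_nonneg (by positivity)]
        exact pow_le_pow_right₀ hn (hlen u).2
      have h4 : |((hq u.1 (n + 1) : ℚ) : ℝ)| ≤ ((n : ℝ) + 1) ^ W := by
        rw [abs_of_nonneg (by exact_mod_cast hq_nonneg _ _)]
        have h5 : ((hq u.1 (n + 1) : ℚ) : ℝ) ≤ (((((n + 1 : ℕ) : ℚ) ^ u.1.length : ℚ)) : ℝ) := by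
          exact_mod_cast hq_le u.1 (n + 1)
        push_cast at h5
        exact h5.trans (pow_le_pow_right₀ hn (hlen u).1)
      calc |(χ (n + 1) : ℝ)| * |((n : ℝ) + 1) ^ u.1.sum| * |((hq u.1 (n + 1) : ℚ) : ℝ)| ≤
          2 * ((n : ℝ) + 1) ^ W * ((n : ℝ) + 1) ^ W :=
          mul_le_mul (mul_le_mul h2 h3 (abs_nonneg _) (by norm_num)) h4 (abs_nonneg _) (by positivity)
        _ = _ := by ring
    rw [div_le_iff₀ (by positivity)]
    calc |(G i u n : ℝ)| ≤ 2 * ((n : ℝ) + 1) ^ (2 * W) := h1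
      _ = 2 * (1 / ((n : ℝ) + 1) ^ 2) * ((n : ℝ) + 1) ^ σ := by
          rw [hσ, pow_add]
          field_simp
  have hval : ∀ (u : K) (w : ℕ), σ ≤ w → dr (G 0 u) w = 2 * (mu z (w - u.1.sum) u.1).re := by
    intro u w hw
    obtain ⟨hl1, hl2⟩ := hlen u
    have hsm := summ_mu (z := z) hzn.le (e := w - u.1.sum) (u := u.1) (by omega)
    rw [mu, Complex.re_tsum hsm, dr, ← tsum_mul_left]
    refine tsum_congr fun n => ?_
    have hn : ((n : ℝ) + 1) ≠ 0 := by positivity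
    have h1 : (z ^ (n + 1) / ((n + 1 : ℕ) : ℂ) ^ (w - u.1.sum) * hs u.1 (n + 1)).re =
        (z ^ (n + 1)).re / ((n : ℝ) + 1) ^ (w - u.1.sum) * ((hq u.1 (n + 1) : ℚ) : ℝ) := by
      rw [← hq_cast]
      have h2 : z ^ (n + 1) / ((n + 1 : ℕ) : ℂ) ^ (w - u.1.sum) * ((hq u.1 (n + 1) : ℚ) : ℂ) =
          z ^ (n + 1) * (((1 / ((n : ℝ) + 1) ^ (w - u.1.sum) * ((hq u.1 (n + 1) : ℚ) : ℝ) : ℝ)) : ℂ) := by
        push_cast
        ring
      rw [h2, Complex.re_mul_ofReal]
      ring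
    rw [h1, hG]
    push_cast
    rw [hχ1 (n + 1)]
    have h3 : ((n : ℝ) + 1) ^ w = ((n : ℝ) + 1) ^ (w - u.1.sum) * ((n : ℝ) + 1) ^ u.1.sum := by
      rw [← pow_add]
      congr 1
      omega
    rw [h3]
    field_simp
  obtain ⟨L, hcore⟩ := core G hGS (δ0 := 1) one_pos
  obtain ⟨δ, hδ, N0, hmain⟩ := hcore (1 / ((L : ℝ) + 1)) (by positivity)
  refine ⟨δ, hδ, max N0 σ, fun w hw a ha hac hsum => ?_⟩
  have hw1 : N0 ≤ w := (le_max_left _ _).trans hw
  have hw2 : σ ≤ w := (le_max_right _ _).trans hw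
  refine hmain w hw1 (fun _ => w) (fun _ => ⟨hw2, le_rfl⟩) (fun _ => by rw [one_mul]) ?_
    (fun e => a (e 0).1) (fun e => hac _ (e 0).2) ?_ ?_
  · -- the gap
    have key : ∀ l ∈ cb (Fin 1) L, ∀ l' ∈ cb (Fin 1) L, l 0 < l' 0 →
        1 / ((L : ℝ) + 1) * (w : ℝ) ≤ lg (fun _ => w) l' - lg (fun _ => w) l := by
      intro l hl l' hl' hlt
      rw [lg, lg, Fin.sum_univ_one, Fin.sum_univ_one, ← sub_mul]
      refine mul_le_mul_of_nonneg_right ?_ (Nat.cast_nonneg _)
      rw [← Real.log_div (by positivity) (by positivity)]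
      have h1 : (l 0 : ℝ) + 1 ≤ l' 0 := by exact_mod_cast hlt
      have h2 : (l' 0 : ℝ) + 1 ≤ L := by exact_mod_cast mem_cb.1 hl' 0
      have h0 : (0 : ℝ) ≤ l 0 := Nat.cast_nonneg _
      have h3 := Real.one_sub_inv_le_log_of_pos (show 0 < ((l' 0 : ℝ) + 1) / ((l 0 : ℝ) + 1) by positivity)
      refine le_trans ?_ h3
      rw [inv_div, div_le_iff₀ (by positivity), sub_mul, one_mul]
      have h4 : ((l 0 : ℝ) + 1) / ((l' 0 : ℝ) + 1) * ((L : ℝ) + 1) =
          ((l 0 : ℝ) + 1) * (((L : ℝ) + 1) / ((l' 0 : ℝ) + 1)) := by ring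
      have h5 : ((l 0 : ℝ) + 1) / ((l' 0 : ℝ) + 1) ≤ (l' 0 : ℝ) / ((l' 0 : ℝ) + 1) :=
        div_le_div_of_nonneg_right h1 (by positivity)
      have h6 : (l' 0 : ℝ) / ((l' 0 : ℝ) + 1) * ((L : ℝ) + 1) ≤ L := by
        rw [div_mul_eq_mul_div, div_le_iff₀ (by positivity)]
        nlinarith
      have h7 : ((l 0 : ℝ) + 1) / ((l' 0 : ℝ) + 1) * ((L : ℝ) + 1) ≤
          (l' 0 : ℝ) / ((l' 0 : ℝ) + 1) * ((L : ℝ) + 1) :=
        mul_le_mul_of_nonneg_right h5 (by positivity)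
      linarith
    intro l hl l' hl' hne
    have h0 : l 0 ≠ l' 0 := by
      intro h
      apply hne
      funext i
      have : i = 0 := Subsingleton.elim _ _
      rw [this, h]
    rcases Nat.lt_or_gt_of_ne h0 with h | h
    · rw [abs_sub_comm]
      exact (key l hl l' hl' h).trans (le_abs_self _)
    · exact (key l' hl' l hl h).trans (le_abs_self _)
  · -- formal
    by_contra hcon
    push Not at hcon
    have h1 : (fun u : K => ((a u.1 : ℤ) : ℂ)) = 0 := by
      refine formal W _ fun m hm => ?_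
      have h2 := hcon fun _ => m - 1
      rw [fm, Fintype.sum_equiv (Equiv.funUnique (Fin 1) K) _ (fun u : K => (a u.1 : ℚ) * G 0 u (m - 1))
        (fun e => by rw [Fin.prod_univ_one]; rfl)] at h2
      have hm1 : m - 1 + 1 = m := Nat.sub_add_cancel hm
      have h3 : (χ m : ℂ) * ∑ u : K, ((a u.1 : ℤ) : ℂ) * ((m : ℂ) ^ u.1.sum * hs u.1 m) = 0 := by
        have h4 : ((∑ u : K, (a u.1 : ℚ) * G 0 u (m - 1) : ℚ) : ℂ) = 0 := by rw [h2, Rat.cast_zero]
        rw [← h4, mul_sum]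
        push_cast
        refine sum_congr rfl fun u _ => ?_
        rw [hG]
        simp only [hm1]
        push_cast
        rw [hq_cast]
        have h5 : (((m - 1 : ℕ) : ℂ) + 1) = (m : ℂ) := by exact_mod_cast congrArg (Nat.cast : ℕ → ℂ) hm1
        rw [h5]
        ring
      exact (mul_eq_zero.1 h3).resolve_left (by exact_mod_cast hχ2 m)
    obtain ⟨u, hu, hau⟩ := ha
    have h6 := congrFun h1 ⟨u, hu⟩
    simp only [Pi.zero_apply] at h6
    exact hau (by exact_mod_cast h6)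
  · -- the value
    rw [ev, Fintype.sum_equiv (Equiv.funUnique (Fin 1) K) _ (fun u : K => ((a u.1 : ℤ) : ℝ) * dr (G 0 u) w)
      (fun e => by rw [Fin.prod_univ_one]; push_cast; rfl)]
    simp only [hval _ w hw2]
    rw [← sum_coe_sort (rs W)] at hsum
    have h1 : ∑ u : K, ((a u.1 : ℤ) : ℝ) * (2 * (mu z (w - u.1.sum) u.1).re) =
        2 * ∑ u : K, (a u.1 : ℝ) * (mu z (w - u.1.sum) u.1).re := by
      rw [mul_sum]
      exact sum_congr rfl fun u _ => by ring
    rw [h1, hsum, mul_zero]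

end Pool.Agent.X90.DM
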