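import Pool.Agent.X90.DM.Pure
import Mathlib.NumberTheory.LSeries.Convolution

/-!
# Finite combinations of Dirichlet series with rational coefficients
-/

set_option autoImplicit false

namespace Pool.Agent.X90.DM

open Finset

/-- the coefficients as a function on the positive integers -/
noncomputable def fc (g : ℕ → ℚ) (n : ℕ) : ℂ := (g (n - 1) : ℂ)

lemma term_succ (g : ℕ → ℚ) (s n : ℕ) :
    LSeries.term (fc g) (s : ℂ) (n + 1) = (((g n : ℝ) / ((n : ℝ) + 1) ^ s : ℝ) : ℂ) := by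
  rw [LSeries.term_of_ne_zero (Nat.succ_ne_zero n), fc, Nat.succ_sub_one, Complex.cpow_natCast]
  push_cast
  rfl

lemma Sm_iff (σ : ℕ) (g : ℕ → ℚ) : Sm σ g ↔ LSeriesSummable (fc g) (σ : ℂ) := by
  rw [LSeriesSummable, ← summable_nat_add_iff 1, ← summable_norm_iff]
  simp only [term_succ, Complex.norm_real, Real.norm_eq_abs, abs_div]
  rw [Sm]
  refine summable_congr fun n => ?_
  rw [abs_of_nonneg (show (0 : ℝ) ≤ ((n : ℝ) + 1) ^ σ by positivity)]

lemma Sm.mono {σ s : ℕ} (hs : σ ≤ s) {g : ℕ → ℚ} (hg : Sm σ g) : Sm s g := by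
  refine Summable.of_nonneg_of_le (fun n => by positivity) (fun n => ?_) hg
  refine div_le_div_of_nonneg_left (abs_nonneg _) (by positivity) ?_
  exact pow_le_pow_right₀ (by linarith [(Nat.cast_nonneg n : (0 : ℝ) ≤ n)]) hs

lemma lser {σ s : ℕ} (hs : σ ≤ s) {g : ℕ → ℚ} (hg : Sm σ g) : LSeries (fc g) (s : ℂ) = (dr g s : ℂ) := by
  have h1 : Summable (LSeries.term (fc g) (s : ℂ)) := (Sm_iff s g).1 (hg.mono hs)
  rw [LSeries, h1.tsum_eq_zero_add, LSeries.term_zero, zero_add, dr, Complex.ofReal_tsum]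
  exact tsum_congr fun n => term_succ g s n

/-- the Dirichlet product -/
def dm (f g : ℕ → ℚ) (n : ℕ) : ℚ := ∑ p ∈ (n + 1).divisorsAntidiagonal, f (p.1 - 1) * g (p.2 - 1)

lemma fc_dm (f g : ℕ → ℚ) {n : ℕ} (hn : n ≠ 0) : (LSeries.convolution (fc f) (fc g)) n = fc (dm f g) n := by
  rw [LSeries.convolution_def]
  simp only [fc, dm]
  rw [Nat.sub_add_cancel (Nat.pos_of_ne_zero hn)]
  push_cast
  rfl

lemma Sm_dm {σ : ℕ} {f g : ℕ → ℚ} (hf : Sm σ f) (hg : Sm σ g) : Sm σ (dm f g) := by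
  rw [Sm_iff] at *
  exact (LSeriesSummable_congr _ fun {n} hn => fc_dm f g hn).1 (hf.convolution hg)

lemma dr_dm {σ s : ℕ} (hs : σ ≤ s) {f g : ℕ → ℚ} (hf : Sm σ f) (hg : Sm σ g) :
    dr (dm f g) s = dr f s * dr g s := by
  have h1 := LSeries_convolution' ((Sm_iff s f).1 (hf.mono hs)) ((Sm_iff s g).1 (hg.mono hs))
  rw [LSeries_congr (fun {n} hn => fc_dm f g hn), lser hs (Sm_dm hf hg), lser hs hf, lser hs hg] at h1
  exact_mod_cast h1

/-- finite combinations of Dirichlet series with rational coefficients -/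
def Cl (σ : ℕ) (E : ℕ → ℂ) : Prop := ∃ (κ : Type) (_ : Fintype κ) (a : κ → ℂ) (φ : κ → ℕ → ℚ),
  (∀ ν, Sm σ (φ ν)) ∧ ∀ s, σ ≤ s → E s = ∑ ν, a ν * (dr (φ ν) s : ℂ)

lemma Cl.one (σ : ℕ) : Cl σ fun _ => 1 := by
  refine ⟨Unit, inferInstance, fun _ => 1, fun _ n => if n = 0 then 1 else 0, fun _ => ?_, fun s _ => ?_⟩
  · refine summable_of_ne_finset_zero (s := {0}) fun n hn => ?_
    rw [mem_singleton] at hn
    simp [hn]
  · rw [univ_unique, sum_singleton, one_mul, dr, tsum_eq_single 0]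
    · simp
    · intro n hn
      simp [hn]

lemma Cl.mul {σ : ℕ} {E F : ℕ → ℂ} (hE : Cl σ E) (hF : Cl σ F) : Cl σ fun s => E s * F s := by
  obtain ⟨κ, i1, a, φ, h1, h2⟩ := hE
  obtain ⟨κ', i2, b, ψ, h3, h4⟩ := hF
  refine ⟨κ × κ', inferInstance, fun p => a p.1 * b p.2, fun p => dm (φ p.1) (ψ p.2),
    fun p => Sm_dm (h1 _) (h3 _), fun s hs => ?_⟩
  change E s * F s = ∑ p : κ × κ', (a p.1 * b p.2) * (dr (dm (φ p.1) (ψ p.2)) s : ℂ)
  rw [h2 s hs, h4 s hs, sum_mul_sum, Fintype.sum_prod_type]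
  refine sum_congr rfl fun ν _ => sum_congr rfl fun ν' _ => ?_
  rw [dr_dm hs (h1 _) (h3 _)]
  push_cast
  ring

lemma Cl.add {σ : ℕ} {E F : ℕ → ℂ} (hE : Cl σ E) (hF : Cl σ F) : Cl σ fun s => E s + F s := by
  obtain ⟨κ, i1, a, φ, h1, h2⟩ := hE
  obtain ⟨κ', i2, b, ψ, h3, h4⟩ := hF
  refine ⟨κ ⊕ κ', inferInstance, Sum.elim a b, Sum.elim φ ψ, fun p => ?_, fun s hs => ?_⟩
  · cases p with
    | inl ν => exact h1 ν
    | inr ν => exact h3 ν
  · change E s + F s = _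
    rw [h2 s hs, h4 s hs, Fintype.sum_sum_type]
    rfl

lemma Cl.smul {σ : ℕ} {E : ℕ → ℂ} (c : ℂ) (hE : Cl σ E) : Cl σ fun s => c * E s := by
  obtain ⟨κ, i1, a, φ, h1, h2⟩ := hE
  refine ⟨κ, i1, fun ν => c * a ν, φ, h1, fun s hs => ?_⟩
  change c * E s = _
  rw [h2 s hs, mul_sum]
  exact sum_congr rfl fun ν _ => by ring

lemma Cl.congr {σ : ℕ} {E F : ℕ → ℂ} (hE : Cl σ E) (h : ∀ s, σ ≤ s → F s = E s) : Cl σ F := by
  obtain ⟨κ, i1, a, φ, h1, h2⟩ := hE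
  exact ⟨κ, i1, a, φ, h1, fun s hs => by rw [h s hs, h2 s hs]⟩

lemma Cl.pow {σ : ℕ} {E : ℕ → ℂ} (hE : Cl σ E) (m : ℕ) : Cl σ fun s => E s ^ m := by
  induction m with
  | zero => exact (Cl.one σ).congr fun s _ => pow_zero _
  | succ m ih => exact (ih.mul hE).congr fun s _ => pow_succ _ _

lemma Cl.prod {σ : ℕ} {J : Type} (S : Finset J) (E : J → ℕ → ℂ) (hE : ∀ j ∈ S, Cl σ (E j)) :
    Cl σ fun s => ∏ j ∈ S, E j s := by
  classical
  induction S using Finset.induction_on with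
  | empty => exact (Cl.one σ).congr fun s _ => prod_empty
  | insert j S hj ih =>
    have h1 := ih fun i hi => hE i (mem_insert_of_mem hi)
    exact ((hE j (mem_insert_self _ _)).mul h1).congr fun s _ => prod_insert hj

end Pool.Agent.X90.DM
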