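import Pool.Agent.X90.DA.Main2

/-!
# Families of Dirichlet series at the same arguments: definitions and elimination of constants
-/

set_option autoImplicit false

namespace Pool.Agent.X90.DM

open Finset
open Pool.Agent.X90.DA (box mem_box card_box)

/-- value of a Dirichlet series -/
noncomputable def dr (g : ℕ → ℚ) (s : ℕ) : ℝ := ∑' n : ℕ, (g n : ℝ) / ((n : ℝ) + 1) ^ s

/-- summability at `σ` -/
def Sm (σ : ℕ) (g : ℕ → ℚ) : Prop := Summable fun n : ℕ => |(g n : ℝ)| / ((n : ℝ) + 1) ^ σ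

section defs

variable {ι : Type} [Fintype ι] [DecidableEq ι] {K : Type} [Fintype K]

/-- the formal coefficients -/
def fm (G : ι → K → ℕ → ℚ) (c : (ι → K) → ℚ) (l : ι → ℕ) : ℚ :=
  ∑ e : ι → K, c e * ∏ i, G i (e i) (l i)

/-- the value -/
noncomputable def ev (G : ι → K → ℕ → ℚ) (c : (ι → K) → ℚ) (s : ι → ℕ) : ℝ :=
  ∑ e : ι → K, (c e : ℝ) * ∏ i, dr (G i (e i)) (s i)

lemma fm_comb (G : ι → K → ℕ → ℚ) (x y : ℚ) (c c' : (ι → K) → ℚ) (l : ι → ℕ) :
    fm G (fun e => x * c e - y * c' e) l = x * fm G c l - y * fm G c' l := by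
  rw [fm, fm, fm, mul_sum, mul_sum, ← sum_sub_distrib]
  exact sum_congr rfl fun e _ => by ring

lemma ev_comb (G : ι → K → ℕ → ℚ) (x y : ℚ) (c c' : (ι → K) → ℚ) (s : ι → ℕ) :
    ev G (fun e => x * c e - y * c' e) s = x * ev G c s - y * ev G c' s := by
  rw [ev, ev, ev, mul_sum, mul_sum, ← sum_sub_distrib]
  refine sum_congr rfl fun e _ => ?_
  push_cast
  ring

lemma sum_arr {ι κ K : Type} [Fintype ι] [Fintype κ] [Fintype K] [DecidableEq ι] [DecidableEq κ]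
    {R : Type} [AddCommMonoid R] (F : (ι → K) → (κ → K) → R) :
    ∑ g : ι ⊕ κ → K, F (g ∘ Sum.inl) (g ∘ Sum.inr) = ∑ a, ∑ b, F a b := by
  rw [← Fintype.sum_prod_type' (f := F)]
  exact Fintype.sum_equiv (Equiv.sumArrowEquivProdArrow ι κ K) _ _ (fun g => rfl)

lemma fm_prod (G : ι → K → ℕ → ℚ) (c c' : (ι → K) → ℚ) (l l' : ι → ℕ) :
    fm (ι := ι ⊕ ι) (Sum.elim G G) (fun g => c (g ∘ Sum.inl) * c' (g ∘ Sum.inr)) (Sum.elim l l') =
      fm G c l * fm G c' l' := by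
  rw [fm, fm, fm, sum_mul_sum]
  rw [← sum_arr fun a b => (c a * ∏ i, G i (a i) (l i)) * (c' b * ∏ i, G i (b i) (l' i))]
  refine sum_congr rfl fun g _ => ?_
  rw [Fintype.prod_sum_type]
  simp only [Sum.elim_inl, Sum.elim_inr, Function.comp_apply]
  ring

lemma ev_prod (G : ι → K → ℕ → ℚ) (c c' : (ι → K) → ℚ) (s t : ι → ℕ) :
    ev (ι := ι ⊕ ι) (Sum.elim G G) (fun g => c (g ∘ Sum.inl) * c' (g ∘ Sum.inr)) (Sum.elim s t) =
      ev G c s * ev G c' t := by
  rw [ev, ev, ev, sum_mul_sum]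
  rw [← sum_arr fun a b => ((c a : ℝ) * ∏ i, dr (G i (a i)) (s i)) *
    ((c' b : ℝ) * ∏ i, dr (G i (b i)) (t i))]
  refine sum_congr rfl fun g _ => ?_
  rw [Fintype.prod_sum_type]
  simp only [Sum.elim_inl, Sum.elim_inr, Function.comp_apply]
  push_cast
  ring

/-- formal zero implies zero for the values with `s0 ≤ s` -/
def Fz (G : ι → K → ℕ → ℚ) (s0 : ℕ) : Prop :=
  ∀ c : (ι → K) → ℚ, (∀ l, fm G c l = 0) → ∀ s : ι → ℕ, (∀ i, s0 ≤ s i) → ev G c s = 0

open Classical in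
/-- the tuples with a relation which is not formal -/
noncomputable def Bad (G : ι → K → ℕ → ℚ) {M : ℕ} (v : Fin M → ℂ) (s0 N : ℕ) (h : ℝ) :
    Finset (ι → ℕ) :=
  (box ι s0 N).filter fun s => ∃ a : (ι → K) → Fin M → ℤ,
    (∃ l j, fm G (fun e => (a e j : ℚ)) l ≠ 0) ∧ (∀ e j, |(a e j : ℝ)| ≤ Real.exp h) ∧
    ∑ j, v j * (ev G (fun e => (a e j : ℚ)) s : ℂ) = 0

lemma mem_Bad {G : ι → K → ℕ → ℚ} {M : ℕ} {v : Fin M → ℂ} {s0 N : ℕ} {h : ℝ} {s : ι → ℕ} :
    s ∈ Bad G v s0 N h ↔ (∀ i, s0 ≤ s i ∧ s i ≤ N) ∧ ∃ a : (ι → K) → Fin M → ℤ,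
    (∃ l j, fm G (fun e => (a e j : ℚ)) l ≠ 0) ∧ (∀ e j, |(a e j : ℝ)| ≤ Real.exp h) ∧
    ∑ j, v j * (ev G (fun e => (a e j : ℚ)) s : ℂ) = 0 := by
  classical
  rw [Bad, mem_filter, mem_box]

lemma Bad_mono {G : ι → K → ℕ → ℚ} {M : ℕ} {v : Fin M → ℂ} {s0 N : ℕ} {h h' : ℝ} (hh : h ≤ h') :
    Bad G v s0 N h ⊆ Bad G v s0 N h' := by
  intro s hs
  rw [mem_Bad] at hs ⊢
  obtain ⟨h1, a, h2, h3, h4⟩ := hs
  exact ⟨h1, a, h2, fun e j => (h3 e j).trans (Real.exp_le_exp.2 hh), h4⟩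

/-- the tuples that remain -/
noncomputable def Rem (G : ι → K → ℕ → ℚ) {M : ℕ} (v : Fin (M + 2) → ℂ) (s0 N : ℕ) (h : ℝ) :
    Finset (ι → ℕ) :=
  Bad G v s0 N h \ (Bad G (fun j : Fin (M + 1) => v j.castSucc) s0 N h ∪
    Bad G (fun _ : Fin 1 => 1) s0 N h)

lemma last_ne {M : ℕ} {G : ι → K → ℕ → ℚ} {v : Fin (M + 2) → ℂ} {s0 N : ℕ} {h : ℝ} {s : ι → ℕ}
    (hz : Fz G s0) (hs : s ∈ Rem G v s0 N h) : (∀ i, s0 ≤ s i ∧ s i ≤ N) ∧
    ∃ a : (ι → K) → Fin (M + 2) → ℤ, (∀ e j, |(a e j : ℝ)| ≤ Real.exp h) ∧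
      ∑ j, v j * (ev G (fun e => (a e j : ℚ)) s : ℂ) = 0 ∧
      (∃ l, fm G (fun e => (a e (Fin.last (M + 1)) : ℚ)) l ≠ 0) ∧
      ev G (fun e => (a e (Fin.last (M + 1)) : ℚ)) s ≠ 0 := by
  classical
  rw [Rem, mem_sdiff, mem_union, not_or] at hs
  obtain ⟨h1, h2, h3⟩ := hs
  rw [mem_Bad] at h1
  obtain ⟨hb, a, ha, haC, hrel⟩ := h1
  have hne : ∃ l, fm G (fun e => (a e (Fin.last (M + 1)) : ℚ)) l ≠ 0 := by
    by_contra hcon
    push Not at hcon
    apply h2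
    rw [mem_Bad]
    refine ⟨hb, fun e j => a e j.castSucc, ?_, fun e j => haC e _, ?_⟩
    · obtain ⟨l, j, hl⟩ := ha
      refine ⟨l, ?_⟩
      revert hl
      refine Fin.lastCases ?_ (fun i => ?_) j
      · intro hl
        exact absurd (hcon l) hl
      · intro hl
        exact ⟨i, hl⟩
    · rw [Fin.sum_univ_castSucc] at hrel
      have h5 := hz _ hcon s fun i => (hb i).1
      rw [h5, Complex.ofReal_zero, mul_zero, add_zero] at hrel
      exact hrel
  refine ⟨hb, a, haC, hrel, hne, fun h0 => h3 ?_⟩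
  rw [mem_Bad]
  refine ⟨hb, fun e _ => a e (Fin.last (M + 1)), ?_, fun e _ => haC e _, ?_⟩
  · obtain ⟨l, hl⟩ := hne
    exact ⟨l, 0, hl⟩
  · simp only [univ_unique, sum_singleton, one_mul]
    exact_mod_cast h0

/-- **one step of the elimination** -/
lemma pair {M : ℕ} (G : ι → K → ℕ → ℚ) (v : Fin (M + 2) → ℂ) (hv : LinearIndependent ℚ v)
    (s0 N : ℕ) (hz : Fz G s0) (h : ℝ) {s t : ι → ℕ} (hs : s ∈ Rem G v s0 N h)
    (ht : t ∈ Rem G v s0 N h) :
    Sum.elim s t ∈ Bad (ι := ι ⊕ ι) (Sum.elim G G) (fun j : Fin (M + 1) => v j.castSucc) s0 N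
      (2 * h + 1) := by
  classical
  obtain ⟨hbs, a, haC, hra, hae, hea⟩ := last_ne hz hs
  obtain ⟨hbt, b, hbC, hrb, ⟨l1, hl1⟩, heb⟩ := last_ne hz ht
  set L := Fin.last (M + 1) with hL
  have hsplit : ∀ j : Fin (M + 1), (fun g : ι ⊕ ι → K => (((a (g ∘ Sum.inl) j.castSucc *
      b (g ∘ Sum.inr) L - a (g ∘ Sum.inl) L * b (g ∘ Sum.inr) j.castSucc : ℤ)) : ℚ)) =
      fun g => 1 * ((a (g ∘ Sum.inl) j.castSucc : ℚ) * (b (g ∘ Sum.inr) L : ℚ)) -
        1 * ((a (g ∘ Sum.inl) L : ℚ) * (b (g ∘ Sum.inr) j.castSucc : ℚ)) := by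
    intro j
    funext g
    push_cast
    ring
  rw [mem_Bad]
  refine ⟨fun i => ?_, fun g j => a (g ∘ Sum.inl) j.castSucc * b (g ∘ Sum.inr) L -
    a (g ∘ Sum.inl) L * b (g ∘ Sum.inr) j.castSucc, ?_, fun g j => ?_, ?_⟩
  · cases i with
    | inl i => exact hbs i
    | inr i => exact hbt i
  · by_contra h0
    push Not at h0
    have h1 : ∀ (l : ι → ℕ) (j : Fin (M + 1)), fm G (fun e => (b e L : ℚ)) l1 *
        fm G (fun e => (a e j.castSucc : ℚ)) l -
        fm G (fun e => (b e j.castSucc : ℚ)) l1 * fm G (fun e => (a e L : ℚ)) l = 0 := by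
      intro l j
      have h2 := h0 (Sum.elim l l1) j
      rw [hsplit j, fm_comb, fm_prod G (fun e => (a e j.castSucc : ℚ)) (fun e => (b e L : ℚ)),
        fm_prod G (fun e => (a e L : ℚ)) (fun e => (b e j.castSucc : ℚ))] at h2
      linear_combination h2
    have h3 : ∀ j : Fin (M + 2), (fm G (fun e => (b e L : ℚ)) l1 : ℝ) *
        ev G (fun e => (a e j : ℚ)) s - (fm G (fun e => (b e j : ℚ)) l1 : ℝ) *
        ev G (fun e => (a e L : ℚ)) s = 0 := by
      intro j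
      refine Fin.lastCases ?_ (fun i => ?_) j
      · rw [← hL]
        ring
      · rw [← ev_comb]
        refine hz _ (fun l => ?_) s fun i => (hbs i).1
        rw [fm_comb]
        exact h1 l i
    set q : Fin (M + 2) → ℚ := fun j => fm G (fun e => (b e j : ℚ)) l1 with hq
    have h5 : (∑ j, (q j : ℂ) * v j) * (ev G (fun e => (a e L : ℚ)) s : ℂ) = 0 := by
      have h6 : ∀ j, (q j : ℂ) * (ev G (fun e => (a e L : ℚ)) s : ℂ) =
          (q L : ℂ) * (ev G (fun e => (a e j : ℚ)) s : ℂ) := by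
        intro j
        have h7 := h3 j
        have h8 : (q j : ℝ) * ev G (fun e => (a e L : ℚ)) s = (q L : ℝ) * ev G (fun e => (a e j : ℚ)) s := by
          rw [hq]
          linear_combination -h7
        exact_mod_cast h8
      calc (∑ j, (q j : ℂ) * v j) * (ev G (fun e => (a e L : ℚ)) s : ℂ) =
          ∑ j, v j * ((q j : ℂ) * (ev G (fun e => (a e L : ℚ)) s : ℂ)) := by
            rw [sum_mul]
            exact sum_congr rfl fun j _ => by ring
        _ = (q L : ℂ) * ∑ j, v j * (ev G (fun e => (a e j : ℚ)) s : ℂ) := by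
            rw [mul_sum]
            exact sum_congr rfl fun j _ => by rw [h6]; ring
        _ = 0 := by rw [hra, mul_zero]
    rcases mul_eq_zero.1 h5 with h6 | h6
    · have h7 := Fintype.linearIndependent_iff.1 hv q (by
        rw [← h6]
        refine sum_congr rfl fun j _ => ?_
        rw [Algebra.smul_def]
        simp) L
      exact hl1 h7
    · exact hea (by exact_mod_cast h6)
  · push_cast
    have h1 : |(a (g ∘ Sum.inl) j.castSucc : ℝ) * (b (g ∘ Sum.inr) L : ℝ)| ≤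
        Real.exp h * Real.exp h := by
      rw [abs_mul]
      exact mul_le_mul (haC _ _) (hbC _ _) (abs_nonneg _) (Real.exp_pos _).le
    have h2 : |(a (g ∘ Sum.inl) L : ℝ) * (b (g ∘ Sum.inr) j.castSucc : ℝ)| ≤
        Real.exp h * Real.exp h := by
      rw [abs_mul]
      exact mul_le_mul (haC _ _) (hbC _ _) (abs_nonneg _) (Real.exp_pos _).le
    refine (abs_sub _ _).trans ?_
    have h3 : Real.exp (2 * h + 1) = Real.exp h * Real.exp h * Real.exp 1 := by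
      rw [← Real.exp_add, ← Real.exp_add]
      congr 1
      ring
    rw [h3]
    have h4 : (2 : ℝ) ≤ Real.exp 1 := by
      have := Real.add_one_le_exp (1 : ℝ)
      linarith
    have h5 : 0 < Real.exp h * Real.exp h := by positivity
    nlinarith
  · have h1 : ∀ j : Fin (M + 1), ev (ι := ι ⊕ ι) (Sum.elim G G) (fun g => (((a (g ∘ Sum.inl) j.castSucc *
      b (g ∘ Sum.inr) L - a (g ∘ Sum.inl) L * b (g ∘ Sum.inr) j.castSucc : ℤ)) : ℚ)) (Sum.elim s t) =
        ev G (fun e => (a e j.castSucc : ℚ)) s * ev G (fun e => (b e L : ℚ)) t -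
        ev G (fun e => (a e L : ℚ)) s * ev G (fun e => (b e j.castSucc : ℚ)) t := by
      intro j
      rw [hsplit j, ev_comb, ev_prod G (fun e => (a e j.castSucc : ℚ)) (fun e => (b e L : ℚ)),
        ev_prod G (fun e => (a e L : ℚ)) (fun e => (b e j.castSucc : ℚ))]
      push_cast
      ring
    simp only [h1]
    rw [Fin.sum_univ_castSucc] at hra hrb
    have h2 : ∑ j : Fin (M + 1), v j.castSucc *
        ((ev G (fun e => (a e j.castSucc : ℚ)) s * ev G (fun e => (b e L : ℚ)) t -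
        ev G (fun e => (a e L : ℚ)) s * ev G (fun e => (b e j.castSucc : ℚ)) t : ℝ) : ℂ) =
        (∑ j : Fin (M + 1), v j.castSucc * (ev G (fun e => (a e j.castSucc : ℚ)) s : ℂ)) *
          (ev G (fun e => (b e L : ℚ)) t : ℂ) -
        (ev G (fun e => (a e L : ℚ)) s : ℂ) *
          ∑ j : Fin (M + 1), v j.castSucc * (ev G (fun e => (b e j.castSucc : ℚ)) t : ℂ) := by
      rw [sum_mul, mul_sum, ← sum_sub_distrib]
      refine sum_congr rfl fun j _ => ?_
      push_cast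
      ring
    rw [h2]
    have h3 : ∑ j : Fin (M + 1), v j.castSucc * (ev G (fun e => (a e j.castSucc : ℚ)) s : ℂ) =
      -(v L * (ev G (fun e => (a e L : ℚ)) s : ℂ)) := by linear_combination hra
    have h4 : ∑ j : Fin (M + 1), v j.castSucc * (ev G (fun e => (b e j.castSucc : ℚ)) t : ℂ) =
      -(v L * (ev G (fun e => (b e L : ℚ)) t : ℂ)) := by linear_combination hrb
    rw [h3, h4]
    ring

lemma card_Rem {M : ℕ} (G : ι → K → ℕ → ℚ) (v : Fin (M + 2) → ℂ) (hv : LinearIndependent ℚ v)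
    (s0 N : ℕ) (hz : Fz G s0) (h : ℝ) : (Rem G v s0 N h).card * (Rem G v s0 N h).card ≤
    (Bad (ι := ι ⊕ ι) (Sum.elim G G) (fun j : Fin (M + 1) => v j.castSucc) s0 N
      (2 * h + 1)).card := by
  classical
  rw [← card_product]
  refine card_le_card_of_injOn (fun p => Sum.elim p.1 p.2) (fun p hp => ?_) ?_
  · rw [mem_coe, mem_product] at hp
    exact pair G v hv s0 N hz h hp.1 hp.2
  · rintro ⟨s, t⟩ _ ⟨s', t'⟩ _ heq
    simp only at heq
    have h1 : s = s' := by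
      funext i
      exact congrFun heq (Sum.inl i)
    have h2 : t = t' := by
      funext i
      exact congrFun heq (Sum.inr i)
    rw [h1, h2]

end defs

/-- the statement of the elimination for relations with integer coefficients -/
def Pure (σ : ℕ) : Prop := ∀ (ι : Type) [Fintype ι] [DecidableEq ι] [Nonempty ι] (K : Type) [Fintype K]
    (G : ι → K → ℕ → ℚ) (_ : ∀ i κ, Sm σ (G i κ)) (s0 : ℕ) (_ : σ + 1 ≤ s0) (ε : ℝ) (_ : 0 < ε),
    ∃ δ : ℝ, 0 < δ ∧ ∃ N0 : ℕ, ∀ N : ℕ, N0 ≤ N →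
      ((Bad G (fun _ : Fin 1 => (1 : ℂ)) s0 N (δ * N)).card : ℝ) ≤ ε * (N : ℝ) ^ Fintype.card ι

/-- formal zero -/
def FzAll (σ : ℕ) : Prop := ∀ (ι : Type) [Fintype ι] [DecidableEq ι] [Nonempty ι] (K : Type) [Fintype K]
    (G : ι → K → ℕ → ℚ) (_ : ∀ i κ, Sm σ (G i κ)) (s0 : ℕ) (_ : σ + 1 ≤ s0), Fz G s0

/-- **elimination** -/
theorem elim (σ : ℕ) (hP : Pure σ) (hF : FzAll σ) (M : ℕ) : ∀ (ι : Type) [Fintype ι] [DecidableEq ι]
    [Nonempty ι] (K : Type) [Fintype K] (G : ι → K → ℕ → ℚ) (_ : ∀ i κ, Sm σ (G i κ)) (s0 : ℕ)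
    (_ : σ + 1 ≤ s0) (v : Fin (M + 1) → ℂ) (_ : LinearIndependent ℚ v) (ε : ℝ) (_ : 0 < ε),
    ∃ δ : ℝ, 0 < δ ∧ ∃ N0 : ℕ, ∀ N : ℕ, N0 ≤ N →
      ((Bad G v s0 N (δ * N)).card : ℝ) ≤ ε * (N : ℝ) ^ Fintype.card ι := by
  classical
  induction M with
  | zero =>
    intro ι _ _ _ K _ G hG s0 hs0 v hv ε hε
    obtain ⟨δ, hδ, N0, h1⟩ := hP ι K G hG s0 hs0 ε hε
    refine ⟨δ, hδ, N0, fun N hN => ?_⟩
    refine le_trans ?_ (h1 N hN)
    have h2 : Bad G v s0 N (δ * N) ⊆ Bad G (fun _ : Fin 1 => (1 : ℂ)) s0 N (δ * N) := by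
      intro s hs
      rw [mem_Bad] at hs ⊢
      obtain ⟨hb, a, ha, haC, hrel⟩ := hs
      refine ⟨hb, a, ha, haC, ?_⟩
      have hrel' : v 0 * (ev G (fun e => (a e 0 : ℚ)) s : ℂ) = 0 := by
        rw [← hrel]
        exact (Fin.sum_univ_one (fun j : Fin 1 => v j * (ev G (fun e => (a e j : ℚ)) s : ℂ))).symm
      rcases mul_eq_zero.1 hrel' with h3 | h3
      · exact absurd h3 (hv.ne_zero 0)
      · rw [Fin.sum_univ_one, one_mul]
        exact h3
    exact_mod_cast card_le_card h2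
  | succ M ih =>
    intro ι _ _ _ K _ G hG s0 hs0 v hv ε hε
    have hv' : LinearIndependent ℚ (fun j : Fin (M + 1) => v j.castSucc) :=
      hv.comp _ (Fin.castSucc_injective _)
    obtain ⟨δ1, hδ1, N1, h1⟩ := hP ι K G hG s0 hs0 (ε / 3) (by positivity)
    obtain ⟨δ2, hδ2, N2, h2⟩ := ih ι K G hG s0 hs0 _ hv' (ε / 3) (by positivity)
    obtain ⟨δ3, hδ3, N3, h3⟩ := ih (ι ⊕ ι) K (Sum.elim G G) (fun i κ => by
      cases i with
      | inl i => exact hG i κ
      | inr i => exact hG i κ) s0 hs0 _ hv' ((ε / 3) ^ 2) (by positivity)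
    refine ⟨min (min δ1 δ2) (δ3 / 3), by positivity, max (max N1 N2) (max N3 (⌈3 / δ3⌉₊)), fun N hN => ?_⟩
    set δ := min (min δ1 δ2) (δ3 / 3) with hδ
    have hN1 : N1 ≤ N := (le_max_left _ _).trans ((le_max_left _ _).trans hN)
    have hN2 : N2 ≤ N := (le_max_right _ _).trans ((le_max_left _ _).trans hN)
    have hN3 : N3 ≤ N := (le_max_left _ _).trans ((le_max_right _ _).trans hN)
    have hN4 : 3 / δ3 ≤ N := (Nat.le_ceil _).trans (by
      exact_mod_cast (le_max_right _ _).trans ((le_max_right _ _).trans hN))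
    have hNn : (0 : ℝ) ≤ N := Nat.cast_nonneg _
    have hd1 : δ * N ≤ δ1 * N := mul_le_mul_of_nonneg_right
      ((min_le_left _ _).trans (min_le_left _ _)) hNn
    have hd2 : δ * N ≤ δ2 * N := mul_le_mul_of_nonneg_right
      ((min_le_left _ _).trans (min_le_right _ _)) hNn
    have hd3 : 2 * (δ * N) + 1 ≤ δ3 * N := by
      have q1 : δ * N ≤ δ3 / 3 * N := mul_le_mul_of_nonneg_right (min_le_right _ _) hNn
      have q2 : 3 ≤ δ3 * N := by
        rw [div_le_iff₀ hδ3] at hN4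
        linarith
      linarith
    set Q : ℝ := (N : ℝ) ^ Fintype.card ι with hQ
    have hQ0 : 0 ≤ Q := by positivity
    have g1 : ((Bad G (fun _ : Fin 1 => (1 : ℂ)) s0 N (δ * N)).card : ℝ) ≤ ε / 3 * Q :=
      le_trans (by exact_mod_cast card_le_card (Bad_mono hd1)) (h1 N hN1)
    have g2 : ((Bad G (fun j : Fin (M + 1) => v j.castSucc) s0 N (δ * N)).card : ℝ) ≤ ε / 3 * Q :=
      le_trans (by exact_mod_cast card_le_card (Bad_mono hd2)) (h2 N hN2)
    have g3 := h3 N hN3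
    have g4 : ((Rem G v s0 N (δ * N)).card : ℝ) * (Rem G v s0 N (δ * N)).card ≤
        (Bad (ι := ι ⊕ ι) (Sum.elim G G) (fun j : Fin (M + 1) => v j.castSucc) s0 N
          (δ3 * N)).card := by
      have q1 := card_Rem G v hv s0 N (hF ι K G hG s0 hs0) (δ * N)
      have q2 := q1.trans (card_le_card (Bad_mono hd3))
      exact_mod_cast q2
    have e4 : (N : ℝ) ^ Fintype.card (ι ⊕ ι) = Q * Q := by
      rw [Fintype.card_sum, pow_add]
    rw [e4] at g3
    set R : ℝ := ((Rem G v s0 N (δ * N)).card : ℝ) with hR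
    have hR0 : 0 ≤ R := Nat.cast_nonneg _
    have g5 : R ≤ ε / 3 * Q := by
      have q1 : R * R ≤ (ε / 3 * Q) * (ε / 3 * Q) := by
        calc R * R ≤ (ε / 3) ^ 2 * (Q * Q) := g4.trans g3
          _ = (ε / 3 * Q) * (ε / 3 * Q) := by ring
      exact (abs_le_of_sq_le_sq' (by nlinarith) (by positivity)).2
    have g6 : ((Bad G v s0 N (δ * N)).card : ℝ) ≤
        (Bad G (fun j : Fin (M + 1) => v j.castSucc) s0 N (δ * N)).card +
        (Bad G (fun _ : Fin 1 => (1 : ℂ)) s0 N (δ * N)).card + R := by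
      have q1 : Bad G v s0 N (δ * N) ⊆ (Bad G (fun j : Fin (M + 1) => v j.castSucc) s0 N (δ * N) ∪
          Bad G (fun _ : Fin 1 => (1 : ℂ)) s0 N (δ * N)) ∪ Rem G v s0 N (δ * N) := by
        intro s hs
        by_cases h5 : s ∈ Bad G (fun j : Fin (M + 1) => v j.castSucc) s0 N (δ * N) ∪
          Bad G (fun _ : Fin 1 => (1 : ℂ)) s0 N (δ * N)
        · exact mem_union_left _ h5
        · refine mem_union_right _ ?_
          rw [Rem, mem_sdiff]
          exact ⟨hs, h5⟩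
      have q2 := (card_le_card q1).trans (card_union_le _ _)
      have q3 := card_union_le (Bad G (fun j : Fin (M + 1) => v j.castSucc) s0 N (δ * N))
        (Bad G (fun _ : Fin 1 => (1 : ℂ)) s0 N (δ * N))
      rw [hR]
      exact_mod_cast q2.trans (Nat.add_le_add_right q3 _)
    linarith

end Pool.Agent.X90.DM
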