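import Pool.Agent.X90.DM.Cls

/-!
# Polynomial relations between Dirichlet series at almost all arguments are identities
-/

set_option autoImplicit false

namespace Pool.Agent.X90.DM

open Finset
open Pool.Agent.X90.DA (fx eval_sum indep box)

lemma pad (n n' : ℕ) (h : n ≤ n') (f : ℕ → ℂ) (hf : ∀ ν, n ≤ ν → f ν = 0) :
    ∑ ν : Fin n', f ν = ∑ ν : Fin n, f ν := by
  rw [Fin.sum_univ_eq_sum_range f n', Fin.sum_univ_eq_sum_range f n]
  symm
  refine sum_subset (range_subset_range.2 h) fun x _ hx => hf x ?_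
  rw [mem_range] at hx
  omega

lemma Cl.nat {σ : ℕ} {E : ℕ → ℂ} (hE : Cl σ E) : ∃ (n : ℕ) (a : ℕ → ℂ) (φ : ℕ → ℕ → ℚ),
    (∀ ν, Sm σ (φ ν)) ∧ ∀ n', n ≤ n' → ∀ s, σ ≤ s → E s = ∑ ν : Fin n', a ν * (dr (φ ν) s : ℂ) := by
  classical
  obtain ⟨κ, i1, a, φ, h1, h2⟩ := hE
  set n := Fintype.card κ with hn
  let eq : κ ≃ Fin n := Fintype.equivFin κ
  refine ⟨n, fun ν => if h : ν < n then a (eq.symm ⟨ν, h⟩) else 0,
    fun ν => if h : ν < n then φ (eq.symm ⟨ν, h⟩) else fun _ => 0, fun ν => ?_, fun n' hn' s hs => ?_⟩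
  · by_cases h : ν < n
    · simp only [dif_pos h]
      exact h1 _
    · simp only [dif_neg h]
      rw [Sm]
      simpa using summable_zero
  · rw [h2 s hs, pad n n' hn' (fun ν => (if h : ν < n then a (eq.symm ⟨ν, h⟩) else 0) *
      (dr (if h : ν < n then φ (eq.symm ⟨ν, h⟩) else fun _ => 0) s : ℂ)) (fun ν hν => by
        rw [dif_neg (by omega), zero_mul])]
    refine Fintype.sum_equiv eq _ _ fun ν => ?_
    have h3 : ((eq ν : Fin n) : ℕ) < n := (eq ν).2
    rw [dif_pos h3, dif_pos h3]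
    simp only [Fin.eta, Equiv.symm_apply_apply]

open Classical in
/-- the integer coefficients -/
noncomputable def cc {t r k D n M : ℕ} (P : MvPolynomial (Fin t ⊕ Fin r) ℤ)
    (ρ : Option ((Fin t → Fin (D + 1)) × ((Fin r → Fin (D + 1)) × (Fin k → Fin n))) →
      Fin (M + 1) → ℤ) (e : Fin k → (Fin r → Fin (D + 1)) × Fin n) (μ : Fin (M + 1)) : ℤ :=
  ∑ m : Fin r → Fin (D + 1), if (fun i => (e i).1) = fun _ => m then
    ∑ a : Fin t → Fin (D + 1), P.coeff (fx (Sum.elim a m)) * ρ (some (a, (m, fun i => (e i).2))) μ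
    else 0

/-- **relations are identities for almost all arguments** -/
theorem gen (t k r D : ℕ) (hk : 1 ≤ k) (σ : ℕ) (x : Fin t → ℂ) (g : Fin r → Fin k)
    (Y : Fin r → ℕ → ℂ) (hY : ∀ j, Cl σ (Y j)) (ε : ℝ) (hε : 0 < ε) :
    ∃ δ : ℝ, 0 < δ ∧ ∃ N0 : ℕ, ∀ N : ℕ, N0 ≤ N →
      (({s : Fin k → ℕ | (∀ i, σ + 1 ≤ s i ∧ s i ≤ N) ∧ ∃ P : MvPolynomial (Fin t ⊕ Fin r) ℤ,
        P.totalDegree ≤ D ∧ (∀ m, |((P.coeff m : ℤ) : ℝ)| ≤ Real.exp (δ * N)) ∧
        MvPolynomial.aeval (Sum.elim x fun j => Y j (s (g j))) P = 0 ∧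
        ¬ ∀ s' : Fin k → ℕ, (∀ i, σ + 1 ≤ s' i) →
          MvPolynomial.aeval (Sum.elim x fun j => Y j (s' (g j))) P = 0}.ncard : ℕ) : ℝ) ≤
        ε * (N : ℝ) ^ k := by
  classical
  haveI : Nonempty (Fin k) := ⟨⟨0, by omega⟩⟩
  -- the families
  have hE : ∀ (i : Fin k) (m : Fin r → Fin (D + 1)),
      Cl σ fun s => ∏ j ∈ univ.filter (fun j => g j = i), Y j s ^ ((m j : Fin (D + 1)) : ℕ) :=
    fun i m => Cl.prod _ _ fun j _ => (hY j).pow _
  have hE' := fun i m => (hE i m).nat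
  choose nn a φ hφ hval using hE'
  set n : ℕ := ∑ i, ∑ m, nn i m with hn
  have hnn : ∀ i m, nn i m ≤ n := by
    intro i m
    have h1 : nn i m ≤ ∑ m, nn i m := single_le_sum (f := fun m => nn i m) (fun _ _ => Nat.zero_le _)
      (mem_univ m)
    have h2 : ∑ m, nn i m ≤ n := single_le_sum (f := fun i => ∑ m, nn i m) (fun _ _ => Nat.zero_le _)
      (mem_univ i)
    exact h1.trans h2
  set G : Fin k → ((Fin r → Fin (D + 1)) × Fin n) → ℕ → ℚ := fun i p => φ i p.1 p.2 with hG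
  have hGS : ∀ i p, Sm σ (G i p) := fun i p => hφ i p.1 p.2
  -- the constants
  set u : Option ((Fin t → Fin (D + 1)) × ((Fin r → Fin (D + 1)) × (Fin k → Fin n))) → ℂ := fun q =>
    match q with
    | none => 1
    | some (b, (m, α)) => (∏ j, x j ^ ((b j : Fin (D + 1)) : ℕ)) * ∏ i, a i m (α i) with hu
  obtain ⟨M, -, v, hv, Δ, hΔ, ρ, hρ⟩ := indep u ⟨none, by simp [hu]⟩
  obtain ⟨δ, hδ, N0, hmain⟩ := elim σ (pureAll σ) (fzAll σ) M (Fin k) _ G hGS (σ + 1) le_rfl v hv ε hε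
  set S : ℝ := 1 + ∑ q, ∑ μ, |(ρ q μ : ℝ)| with hS
  have hS0 : 0 < S := by
    have : 0 ≤ ∑ q, ∑ μ, |(ρ q μ : ℝ)| := by positivity
    linarith
  -- the value
  have hmon : ∀ (m : Fin r → Fin (D + 1)) (s : Fin k → ℕ), (∀ i, σ ≤ s i) →
      ∏ j, Y j (s (g j)) ^ ((m j : Fin (D + 1)) : ℕ) =
        ∑ α : Fin k → Fin n, (∏ i, a i m (α i)) * ∏ i, (dr (φ i m (α i)) (s i) : ℂ) := by
    intro m s hs
    rw [← Finset.prod_fiberwise univ g]
    have h1 : ∀ i, ∏ j ∈ univ.filter (fun j => g j = i), Y j (s (g j)) ^ ((m j : Fin (D + 1)) : ℕ) =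
        ∑ ν : Fin n, a i m ν * (dr (φ i m ν) (s i) : ℂ) := by
      intro i
      rw [← hval i m n (hnn i m) (s i) (hs i)]
      refine prod_congr rfl fun j hj => ?_
      rw [(mem_filter.1 hj).2]
    simp only [h1]
    rw [prod_univ_sum, Fintype.piFinset_univ]
    exact sum_congr rfl fun α _ => prod_mul_distrib
  have hvalue : ∀ (P : MvPolynomial (Fin t ⊕ Fin r) ℤ), P.totalDegree ≤ D → ∀ s : Fin k → ℕ,
      (∀ i, σ ≤ s i) → ∑ μ, v μ * (ev G (fun e => (cc P ρ e μ : ℚ)) s : ℂ) =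
        (Δ : ℂ) * MvPolynomial.aeval (Sum.elim x fun j => Y j (s (g j))) P := by
    intro P hP s hs
    rw [eval_sum hP, mul_sum]
    have h1 : ∀ m : Fin r → Fin (D + 1), (Δ : ℂ) * ((∑ b : Fin t → Fin (D + 1),
        ((P.coeff (fx (Sum.elim b m)) : ℤ) : ℂ) * ∏ j, x j ^ ((b j : Fin (D + 1)) : ℕ)) *
        ∏ j, Y j (s (g j)) ^ ((m j : Fin (D + 1)) : ℕ)) =
        ∑ α : Fin k → Fin n, ∑ b : Fin t → Fin (D + 1), ∑ μ, v μ *
          (((P.coeff (fx (Sum.elim b m)) * ρ (some (b, (m, α))) μ : ℤ) : ℂ) *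
            ∏ i, (dr (φ i m (α i)) (s i) : ℂ)) := by
      intro m
      rw [hmon m s hs, mul_sum, mul_sum]
      refine sum_congr rfl fun α _ => ?_
      rw [sum_mul, mul_sum]
      refine sum_congr rfl fun b _ => ?_
      have h2 := hρ (some (b, (m, α)))
      have h3 : u (some (b, (m, α))) = (∏ j, x j ^ ((b j : Fin (D + 1)) : ℕ)) * ∏ i, a i m (α i) := rfl
      rw [h3] at h2
      calc (Δ : ℂ) * (((P.coeff (fx (Sum.elim b m)) : ℤ) : ℂ) * (∏ j, x j ^ ((b j : Fin (D + 1)) : ℕ)) *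
          ((∏ i, a i m (α i)) * ∏ i, (dr (φ i m (α i)) (s i) : ℂ))) =
          ((P.coeff (fx (Sum.elim b m)) : ℤ) : ℂ) * ((Δ : ℂ) *
            ((∏ j, x j ^ ((b j : Fin (D + 1)) : ℕ)) * ∏ i, a i m (α i))) *
            ∏ i, (dr (φ i m (α i)) (s i) : ℂ) := by ring
        _ = ((P.coeff (fx (Sum.elim b m)) : ℤ) : ℂ) * (∑ μ, (ρ (some (b, (m, α))) μ : ℂ) * v μ) *
            ∏ i, (dr (φ i m (α i)) (s i) : ℂ) := by rw [h2]
        _ = _ := by
            rw [mul_sum, sum_mul]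
            refine sum_congr rfl fun μ _ => ?_
            push_cast
            ring
    simp only [h1]
    -- the left hand side
    have h4 : ∀ μ, (ev G (fun e => (cc P ρ e μ : ℚ)) s : ℂ) = ∑ m : Fin r → Fin (D + 1),
        ∑ α : Fin k → Fin n, ∑ b : Fin t → Fin (D + 1),
          (((P.coeff (fx (Sum.elim b m)) * ρ (some (b, (m, α))) μ : ℤ) : ℂ) *
            ∏ i, (dr (φ i m (α i)) (s i) : ℂ)) := by
      intro μ
      rw [ev]
      push_cast
      have h5 : ∀ H : (Fin k → (Fin r → Fin (D + 1)) × Fin n) → ℂ, ∑ e, H e =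
          ∑ f : Fin k → (Fin r → Fin (D + 1)), ∑ α : Fin k → Fin n, H fun i => (f i, α i) := by
        intro H
        rw [← Fintype.sum_prod_type' (f := fun (f : Fin k → (Fin r → Fin (D + 1)))
          (α : Fin k → Fin n) => H fun i => (f i, α i))]
        exact Fintype.sum_equiv (Equiv.arrowProdEquivProdArrow (Fin k) (fun _ => Fin r → Fin (D + 1))
          fun _ => Fin n) _ _ fun e => rfl
      rw [h5]
      simp only [cc]
      push_cast
      simp only [sum_mul]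
      rw [sum_comm' (t' := univ) (s' := fun _ => univ) (by simp)]
      have h6 : ∀ (α : Fin k → Fin n), ∑ f : Fin k → (Fin r → Fin (D + 1)), ∑ m : Fin r → Fin (D + 1),
          (if (f = fun _ => m) then ∑ b : Fin t → Fin (D + 1),
            ((P.coeff (fx (Sum.elim b m)) : ℤ) : ℂ) * (ρ (some (b, (m, α))) μ : ℂ) else 0) *
            ∏ i, (dr (G i (f i, α i)) (s i) : ℂ) =
          ∑ m : Fin r → Fin (D + 1), ∑ b : Fin t → Fin (D + 1),
            ((P.coeff (fx (Sum.elim b m)) : ℤ) : ℂ) * (ρ (some (b, (m, α))) μ : ℂ) *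
            ∏ i, (dr (φ i m (α i)) (s i) : ℂ) := by
        intro α
        rw [sum_comm]
        refine sum_congr rfl fun m _ => ?_
        rw [sum_eq_single (fun _ => m)]
        · rw [if_pos rfl, sum_mul]
        · intro f _ hf
          rw [if_neg hf, zero_mul]
        · intro h
          exact absurd (mem_univ _) h
      have h7 := sum_congr rfl fun (α : Fin k → Fin n) (_ : α ∈ univ) => h6 α
      refine Eq.trans ?_ (h7.trans ?_)
      · rfl
      · rw [sum_comm]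
    simp only [h4, mul_sum]
    rw [sum_comm]
    refine sum_congr rfl fun m _ => ?_
    rw [sum_comm]
    refine sum_congr rfl fun α _ => ?_
    rw [sum_comm]
  refine ⟨δ / 2, by positivity, max N0 ⌈2 * Real.log S / δ⌉₊, fun N hN => ?_⟩
  have hN0 : N0 ≤ N := (le_max_left _ _).trans hN
  have hN1 : 2 * Real.log S / δ ≤ N := (Nat.le_ceil _).trans (by exact_mod_cast (le_max_right _ _).trans hN)
  have h := hmain N hN0
  rw [Fintype.card_fin] at h
  refine le_trans ?_ h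
  rw [← Set.ncard_coe_finset]
  refine Nat.cast_le.2 (Set.ncard_le_ncard ?_ (finite_toSet _))
  rintro s ⟨hs, P, hP, hPc, hrel, hnid⟩
  rw [mem_coe, mem_Bad]
  refine ⟨hs, fun e μ => cc P ρ e μ, ?_, fun e μ => ?_, ?_⟩
  · by_contra hcon
    push Not at hcon
    apply hnid
    intro s' hs'
    have h1 : ∑ μ, v μ * (ev G (fun e => (cc P ρ e μ : ℚ)) s' : ℂ) = 0 := by
      refine sum_eq_zero fun μ _ => ?_
      rw [fzAll σ (Fin k) _ G hGS (σ + 1) le_rfl _ (fun l => hcon l μ) s' hs', Complex.ofReal_zero,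
        mul_zero]
    rw [hvalue P hP s' fun i => by have := hs' i; omega] at h1
    rcases mul_eq_zero.1 h1 with h2 | h2
    · exact absurd (by exact_mod_cast h2) hΔ
    · exact h2
  · have h1 : |(cc P ρ e μ : ℝ)| ≤ Real.exp (δ / 2 * N) * S := by
      rw [cc]
      push_cast
      have hterm : ∀ m : Fin r → Fin (D + 1), |(if (fun i => (e i).1) = fun _ => m then
          ∑ b : Fin t → Fin (D + 1), ((P.coeff (fx (Sum.elim b m)) : ℤ) : ℝ) *
            (ρ (some (b, (m, fun i => (e i).2))) μ : ℝ) else 0)| ≤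
          Real.exp (δ / 2 * N) * ∑ b : Fin t → Fin (D + 1), |(ρ (some (b, (m, fun i => (e i).2))) μ : ℝ)| := by
        intro m
        split_ifs
        · refine (abs_sum_le_sum_abs _ _).trans ?_
          rw [mul_sum]
          refine sum_le_sum fun b _ => ?_
          rw [abs_mul]
          exact mul_le_mul_of_nonneg_right (hPc _) (abs_nonneg _)
        · rw [abs_zero]
          positivity
      refine (abs_sum_le_sum_abs _ _).trans ((sum_le_sum fun m _ => hterm m).trans ?_)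
      rw [← mul_sum]
      refine mul_le_mul_of_nonneg_left ?_ (Real.exp_pos _).le
      have h2 : ∑ m : Fin r → Fin (D + 1), ∑ b : Fin t → Fin (D + 1),
          |(ρ (some (b, (m, fun i => (e i).2))) μ : ℝ)| =
          ∑ p : (Fin r → Fin (D + 1)) × (Fin t → Fin (D + 1)),
          |(ρ (some (p.2, (p.1, fun i => (e i).2))) μ : ℝ)| := by
        rw [Fintype.sum_prod_type]
      have h3 : ∑ p : (Fin r → Fin (D + 1)) × (Fin t → Fin (D + 1)),
          |(ρ (some (p.2, (p.1, fun i => (e i).2))) μ : ℝ)| ≤ ∑ q, |(ρ q μ : ℝ)| := by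
        rw [← sum_image (s := univ) (g := fun p : (Fin r → Fin (D + 1)) × (Fin t → Fin (D + 1)) =>
          (some (p.2, (p.1, fun i => (e i).2)) : Option ((Fin t → Fin (D + 1)) ×
            ((Fin r → Fin (D + 1)) × (Fin k → Fin n))))) (f := fun q => |(ρ q μ : ℝ)|)]
        · exact sum_le_sum_of_subset_of_nonneg (subset_univ _) fun _ _ _ => abs_nonneg _
        · rintro ⟨p1, p2⟩ _ ⟨q1, q2⟩ _ hpq
          simp only [Option.some.injEq, Prod.mk.injEq] at hpq
          rw [hpq.1, hpq.2.1]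
      have h4 : ∑ q, |(ρ q μ : ℝ)| ≤ ∑ q, ∑ μ, |(ρ q μ : ℝ)| :=
        sum_le_sum fun q _ => single_le_sum (f := fun μ => |(ρ q μ : ℝ)|) (fun _ _ => abs_nonneg _)
          (mem_univ μ)
      rw [h2]
      linarith
    refine h1.trans ?_
    have h5 : S ≤ Real.exp (δ / 2 * N) := by
      rw [← Real.log_le_iff_le_exp hS0]
      rw [div_le_iff₀ hδ] at hN1
      linarith
    calc Real.exp (δ / 2 * N) * S ≤ Real.exp (δ / 2 * N) * Real.exp (δ / 2 * N) :=
          mul_le_mul_of_nonneg_left h5 (Real.exp_pos _).le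
      _ = Real.exp (δ * N) := by
          rw [← Real.exp_add]
          congr 1
          ring
  · rw [hvalue P hP s fun i => by have := (hs i).1; omega, hrel, mul_zero]

end Pool.Agent.X90.DM
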