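import Pool.Agent.X90.DM.Fam
import Pool.Agent.X90.DA.Count

/-!
# Relations with integer coefficients between families of Dirichlet series
-/

set_option autoImplicit false

namespace Pool.Agent.X90.DM

open Finset
open Pool.Agent.X90.DA (box mem_box card_box card_hyper)

/-- the bound -/
noncomputable def sb (σ : ℕ) (g : ℕ → ℚ) : ℝ := ∑' n : ℕ, |(g n : ℝ)| / ((n : ℝ) + 1) ^ σ

lemma sb_nonneg (σ : ℕ) (g : ℕ → ℚ) : 0 ≤ sb σ g := tsum_nonneg fun n => by positivity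

lemma term_le {σ s : ℕ} (hs : σ ≤ s) (g : ℕ → ℚ) (L n : ℕ) :
    |(g (n + L) : ℝ)| / (((n + L : ℕ) : ℝ) + 1) ^ s ≤
      |(g (n + L) : ℝ)| / (((n + L : ℕ) : ℝ) + 1) ^ σ * (1 / ((L : ℝ) + 1) ^ (s - σ)) := by
  have h1 : (0 : ℝ) ≤ (n : ℝ) := Nat.cast_nonneg n
  have h2 : (0 : ℝ) ≤ (L : ℝ) := Nat.cast_nonneg L
  have h3 : (((n + L : ℕ) : ℝ) + 1) ^ s = (((n + L : ℕ) : ℝ) + 1) ^ σ * (((n + L : ℕ) : ℝ) + 1) ^ (s - σ) := by
    rw [← pow_add]
    congr 1
    omega
  rw [h3, div_mul_div_comm, mul_one]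
  refine div_le_div_of_nonneg_left (abs_nonneg _) (by positivity) ?_
  refine mul_le_mul_of_nonneg_left (pow_le_pow_left₀ (by positivity) ?_ _) (by positivity)
  push_cast
  linarith

lemma summ {σ s : ℕ} (hs : σ ≤ s) {g : ℕ → ℚ} (hg : Sm σ g) :
    Summable fun n : ℕ => (g n : ℝ) / ((n : ℝ) + 1) ^ s := by
  refine Summable.of_norm_bounded hg fun n => ?_
  rw [Real.norm_eq_abs, abs_div, abs_of_nonneg (show (0 : ℝ) ≤ ((n : ℝ) + 1) ^ s by positivity)]
  have h := term_le hs g 0 n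
  simpa using h

lemma tail {σ s : ℕ} (hs : σ ≤ s) {g : ℕ → ℚ} (hg : Sm σ g) (L : ℕ) :
    |dr g s - ∑ n ∈ range L, (g n : ℝ) / ((n : ℝ) + 1) ^ s| ≤ sb σ g * (1 / ((L : ℝ) + 1) ^ (s - σ)) := by
  have h1 := (summ hs hg).sum_add_tsum_nat_add L
  have h2 : dr g s - ∑ n ∈ range L, (g n : ℝ) / ((n : ℝ) + 1) ^ s =
      ∑' n : ℕ, (g (n + L) : ℝ) / (((n + L : ℕ) : ℝ) + 1) ^ s := by
    rw [dr, ← h1]
    ring
  rw [h2]
  have h3 : Summable fun n : ℕ => |(g (n + L) : ℝ)| / (((n + L : ℕ) : ℝ) + 1) ^ σ :=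
    (summable_nat_add_iff L).2 hg
  have h4 : ∀ n : ℕ, ‖(g (n + L) : ℝ) / (((n + L : ℕ) : ℝ) + 1) ^ s‖ ≤
      |(g (n + L) : ℝ)| / (((n + L : ℕ) : ℝ) + 1) ^ σ * (1 / ((L : ℝ) + 1) ^ (s - σ)) := by
    intro n
    rw [Real.norm_eq_abs, abs_div,
      abs_of_nonneg (show (0 : ℝ) ≤ (((n + L : ℕ) : ℝ) + 1) ^ s by positivity)]
    exact term_le hs g L n
  have h5 := tsum_of_norm_bounded (h3.mul_right (1 / ((L : ℝ) + 1) ^ (s - σ))).hasSum h4
  rw [Real.norm_eq_abs, tsum_mul_right] at h5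
  refine h5.trans (mul_le_mul_of_nonneg_right ?_ (by positivity))
  have h6 := Summable.sum_add_tsum_nat_add L hg
  rw [sb, ← h6]
  have h7 : 0 ≤ ∑ n ∈ range L, |(g n : ℝ)| / ((n : ℝ) + 1) ^ σ := sum_nonneg fun n _ => by positivity
  linarith

lemma dr_le {σ s : ℕ} (hs : σ ≤ s) {g : ℕ → ℚ} (hg : Sm σ g) : |dr g s| ≤ sb σ g := by
  have h := tail hs hg 0
  simpa using h

lemma part_le {σ s : ℕ} (hs : σ ≤ s) {g : ℕ → ℚ} (hg : Sm σ g) (L : ℕ) :
    |∑ n ∈ range L, (g n : ℝ) / ((n : ℝ) + 1) ^ s| ≤ sb σ g := by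
  refine (abs_sum_le_sum_abs _ _).trans ?_
  refine le_trans (sum_le_sum fun n _ => ?_) (hg.sum_le_tsum (range L) fun n _ => by positivity)
  rw [abs_div, abs_of_nonneg (show (0 : ℝ) ≤ ((n : ℝ) + 1) ^ s by positivity)]
  have h := term_le hs g 0 n
  simpa using h

lemma prod_diff {ι : Type} [DecidableEq ι] (S : Finset ι) (a b : ι → ℝ) {C τ : ℝ} (hC : 1 ≤ C)
    (hτ : 0 ≤ τ) (ha : ∀ i, |a i| ≤ C) (hb : ∀ i, |b i| ≤ C) (hab : ∀ i, |a i - b i| ≤ τ) :
    |∏ i ∈ S, a i - ∏ i ∈ S, b i| ≤ S.card * C ^ S.card * τ := by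
  induction S using Finset.induction_on with
  | empty => simp
  | insert i S hi ih =>
    rw [prod_insert hi, prod_insert hi, card_insert_of_notMem hi]
    have h1 : a i * ∏ j ∈ S, a j - b i * ∏ j ∈ S, b j =
        a i * (∏ j ∈ S, a j - ∏ j ∈ S, b j) + (a i - b i) * ∏ j ∈ S, b j := by ring
    have h2 : |∏ j ∈ S, b j| ≤ C ^ S.card := by
      rw [abs_prod]
      exact (prod_le_prod (fun _ _ => abs_nonneg _) fun j _ => hb j).trans_eq (prod_const _)
    rw [h1]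
    refine (abs_add_le _ _).trans ?_
    rw [abs_mul, abs_mul]
    have h3 : |a i| * |∏ j ∈ S, a j - ∏ j ∈ S, b j| ≤ C * (S.card * C ^ S.card * τ) :=
      mul_le_mul (ha i) ih (abs_nonneg _) (by linarith)
    have h4 : |a i - b i| * |∏ j ∈ S, b j| ≤ τ * C ^ S.card :=
      mul_le_mul (hab i) h2 (abs_nonneg _) hτ
    have h5 : τ * C ^ S.card ≤ C ^ (S.card + 1) * τ := by
      rw [mul_comm]
      exact mul_le_mul_of_nonneg_right (pow_le_pow_right₀ hC (Nat.le_succ _)) hτ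
    push_cast
    calc |a i| * |∏ j ∈ S, a j - ∏ j ∈ S, b j| + |a i - b i| * |∏ j ∈ S, b j| ≤
        C * (S.card * C ^ S.card * τ) + C ^ (S.card + 1) * τ := by linarith
      _ = ((S.card : ℝ) + 1) * C ^ (S.card + 1) * τ := by rw [pow_succ]; ring

section main

variable {ι : Type} [Fintype ι] [DecidableEq ι] {K : Type} [Fintype K]

/-- the box of the coefficients -/
def cb (ι : Type) [Fintype ι] [DecidableEq ι] (L : ℕ) : Finset (ι → ℕ) :=
  Fintype.piFinset fun _ => range L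

lemma mem_cb {L : ℕ} {l : ι → ℕ} : l ∈ cb ι L ↔ ∀ i, l i < L := by
  rw [cb, Fintype.mem_piFinset]
  exact forall_congr' fun i => mem_range

lemma cut (G : ι → K → ℕ → ℚ) (c : (ι → K) → ℚ) (s : ι → ℕ) (L : ℕ) :
    ∑ l ∈ cb ι L, (fm G c l : ℝ) * ∏ i, (1 / ((l i : ℝ) + 1) ^ s i) =
      ∑ e : ι → K, (c e : ℝ) * ∏ i, ∑ n ∈ range L, (G i (e i) n : ℝ) / ((n : ℝ) + 1) ^ s i := by
  have h1 : ∀ e : ι → K, ∏ i, ∑ n ∈ range L, (G i (e i) n : ℝ) / ((n : ℝ) + 1) ^ s i =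
      ∑ l ∈ cb ι L, ∏ i, (G i (e i) (l i) : ℝ) / ((l i : ℝ) + 1) ^ s i := by
    intro e
    rw [prod_univ_sum]
    rfl
  simp only [h1, mul_sum]
  rw [sum_comm]
  refine sum_congr rfl fun l _ => ?_
  rw [fm]
  push_cast
  rw [sum_mul]
  refine sum_congr rfl fun e _ => ?_
  rw [mul_assoc, ← prod_mul_distrib]
  congr 1
  exact prod_congr rfl fun i _ => by ring

lemma approx {σ : ℕ} (G : ι → K → ℕ → ℚ) (hG : ∀ i κ, Sm σ (G i κ)) : ∃ A : ℝ, 0 ≤ A ∧
    ∀ (c : (ι → K) → ℚ) (s : ι → ℕ) (L : ℕ) (τ : ℝ), 0 ≤ τ → (∀ i, σ ≤ s i) →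
      (∀ i, 1 / ((L : ℝ) + 1) ^ (s i - σ) ≤ τ) →
      |ev G c s - ∑ l ∈ cb ι L, (fm G c l : ℝ) * ∏ i, (1 / ((l i : ℝ) + 1) ^ s i)| ≤
        (∑ e, |(c e : ℝ)|) * (A * τ) := by
  set C : ℝ := 1 + ∑ i, ∑ κ, sb σ (G i κ) with hC
  have hC1 : 1 ≤ C := by
    have : 0 ≤ ∑ i, ∑ κ, sb σ (G i κ) := sum_nonneg fun i _ => sum_nonneg fun κ _ => sb_nonneg _ _
    linarith
  have hCb : ∀ i κ, sb σ (G i κ) ≤ C := by
    intro i κ
    have h1 : sb σ (G i κ) ≤ ∑ κ, sb σ (G i κ) :=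
      single_le_sum (f := fun κ => sb σ (G i κ)) (fun κ _ => sb_nonneg _ _) (mem_univ κ)
    have h2 : ∑ κ, sb σ (G i κ) ≤ ∑ i, ∑ κ, sb σ (G i κ) :=
      single_le_sum (f := fun i => ∑ κ, sb σ (G i κ))
        (fun i _ => sum_nonneg fun κ _ => sb_nonneg _ _) (mem_univ i)
    linarith
  refine ⟨(Fintype.card ι : ℝ) * C ^ Fintype.card ι * C, by positivity, fun c s L τ hτ hs hL => ?_⟩
  rw [cut, ev, ← sum_sub_distrib]
  refine (abs_sum_le_sum_abs _ _).trans ?_
  rw [sum_mul]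
  refine sum_le_sum fun e _ => ?_
  rw [← mul_sub, abs_mul]
  refine mul_le_mul_of_nonneg_left ?_ (abs_nonneg _)
  have h := prod_diff (univ : Finset ι) (fun i => dr (G i (e i)) (s i))
    (fun i => ∑ n ∈ range L, (G i (e i) n : ℝ) / ((n : ℝ) + 1) ^ s i) hC1
    (show 0 ≤ C * τ by positivity) (fun i => (dr_le (hs i) (hG _ _)).trans (hCb _ _))
    (fun i => (part_le (hs i) (hG _ _) L).trans (hCb _ _))
    (fun i => (tail (hs i) (hG _ _) L).trans (mul_le_mul (hCb _ _) (hL i) (by positivity) (by linarith)))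
  rw [card_univ] at h
  calc _ ≤ _ := h
    _ = _ := by ring

theorem fzAll (σ : ℕ) : FzAll σ := by
  intro ι _ _ _ K _ G hG s0 hs0 c hc s hs
  obtain ⟨A, hA, h⟩ := approx G hG
  have h1 : ∀ L : ℕ, |ev G c s| ≤ (∑ e, |(c e : ℝ)|) * (A * (1 / ((L : ℝ) + 1))) := by
    intro L
    have h2 := h c s L (1 / ((L : ℝ) + 1)) (by positivity) (fun i => by have := hs i; omega) (fun i => by
      refine div_le_div_of_nonneg_left zero_le_one (by positivity) ?_
      exact le_self_pow₀ (by linarith [(Nat.cast_nonneg L : (0 : ℝ) ≤ L)]) (by have := hs i; omega))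
    have h3 : ∑ l ∈ cb ι L, (fm G c l : ℝ) * ∏ i, (1 / ((l i : ℝ) + 1) ^ s i) = 0 :=
      sum_eq_zero fun l _ => by rw [hc l]; simp
    rwa [h3, sub_zero] at h2
  have h4 : Filter.Tendsto (fun L : ℕ => (∑ e, |(c e : ℝ)|) * (A * (1 / ((L : ℝ) + 1)))) Filter.atTop
      (nhds ((∑ e, |(c e : ℝ)|) * (A * 0))) :=
    (tendsto_one_div_add_atTop_nhds_zero_nat.const_mul A).const_mul _
  have h5 : |ev G c s| ≤ (∑ e, |(c e : ℝ)|) * (A * 0) := ge_of_tendsto' h4 h1
  rw [mul_zero, mul_zero] at h5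
  exact abs_eq_zero.1 (le_antisymm h5 (abs_nonneg _))

/-- finitely many coefficients decide -/
lemma stab (G : ι → K → ℕ → ℚ) : ∃ L : ℕ, ∀ c : (ι → K) → ℚ, (∀ l ∈ cb ι L, fm G c l = 0) →
    ∀ l, fm G c l = 0 := by
  classical
  have hadd : ∀ (c c' : (ι → K) → ℚ) l, fm G (c + c') l = fm G c l + fm G c' l := by
    intro c c' l
    rw [fm, fm, fm, ← sum_add_distrib]
    exact sum_congr rfl fun e _ => by rw [Pi.add_apply, add_mul]
  have hsmul : ∀ (x : ℚ) (c : (ι → K) → ℚ) l, fm G (x • c) l = x * fm G c l := by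
    intro x c l
    rw [fm, fm, mul_sum]
    exact sum_congr rfl fun e _ => by rw [Pi.smul_apply, smul_eq_mul, mul_assoc]
  let W : ℕ → Submodule ℚ ((ι → K) → ℚ) := fun L =>
    { carrier := {c | ∀ l ∈ cb ι L, fm G c l = 0}
      add_mem' := fun {c c'} hc hc' l hl => by rw [hadd, hc l hl, hc' l hl, add_zero]
      zero_mem' := fun l _ => by rw [fm]; simp
      smul_mem' := fun x c hc l hl => by rw [hsmul, hc l hl, mul_zero] }
  have hmono : Monotone fun L => OrderDual.toDual (W L) := by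
    intro L L' hLL
    rw [OrderDual.toDual_le_toDual]
    intro c hc l hl
    exact hc l (mem_cb.2 fun i => (mem_cb.1 hl i).trans_le hLL)
  obtain ⟨n, hn⟩ := IsArtinian.monotone_stabilizes (R := ℚ) (M := (ι → K) → ℚ) ⟨_, hmono⟩
  refine ⟨n, fun c hc l => ?_⟩
  set m : ℕ := n + (1 + ∑ i, l i) with hm
  have h1 : W n = W m := by
    have := hn m (by omega)
    exact OrderDual.toDual.injective this
  have h2 : c ∈ W m := by
    rw [← h1]
    exact hc
  refine h2 l (mem_cb.2 fun i => ?_)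
  have := single_le_sum (f := l) (fun _ _ => Nat.zero_le _) (mem_univ i)
  omega

open Classical in
lemma hyper [Nonempty ι] (lam : ι → ℝ) (hl : lam ≠ 0) : ∃ C : ℝ, 0 < C ∧ ∀ (s0 N : ℕ), 1 ≤ s0 →
    ∀ H : ℝ, 0 ≤ H → (((box ι s0 N).filter fun s => |∑ i, lam i * (s i : ℝ)| < H).card : ℝ) ≤
      (C * H + 1) * (N : ℝ) ^ (Fintype.card ι - 1) := by
  set l : ι → ℝ := fun i => if lam i = 0 then 1 else |lam i| with hl'
  set u : ι → ℤ := fun i => if lam i = 0 then 0 else if 0 < lam i then 1 else -1 with hu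
  have hpos : ∀ i, 0 < l i := by
    intro i
    simp only [hl']
    split_ifs with h
    · exact one_pos
    · exact abs_pos.2 h
  have hul : ∀ i, (u i : ℝ) * l i = lam i := by
    intro i
    simp only [hl', hu]
    split_ifs with h h2
    · simp [h]
    · rw [abs_of_pos h2]; simp
    · rw [abs_of_nonpos (not_lt.1 h2)]; simp
  obtain ⟨i0, hi0⟩ := Finite.exists_min l
  have hu0 : u ≠ 0 := by
    intro h
    apply hl
    funext i
    rw [← hul i, h]
    simp
  refine ⟨2 / l i0, by have := hpos i0; positivity, fun s0 N hs0 H hH => ?_⟩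
  have h := card_hyper (N := N) hs0 l (hpos i0) hi0 u hu0 hH
  have h1 : ∀ s : ι → ℕ, ∑ i, (u i : ℝ) * (l i * s i) = ∑ i, lam i * (s i : ℝ) :=
    fun s => sum_congr rfl fun i _ => by rw [← mul_assoc, hul]
  simp only [h1] at h
  calc _ ≤ _ := h
    _ = _ := by ring

/-- the exponent -/
noncomputable def lg (s : ι → ℕ) (l : ι → ℕ) : ℝ := ∑ i, Real.log ((l i : ℝ) + 1) * (s i : ℝ)

lemma wt_eq (s l : ι → ℕ) : ∏ i, (1 / ((l i : ℝ) + 1) ^ s i) = Real.exp (-lg s l) := by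
  rw [lg, ← sum_neg_distrib, Real.exp_sum]
  refine prod_congr rfl fun i _ => ?_
  rw [Real.exp_neg, mul_comm, Real.exp_nat_mul, Real.exp_log (by positivity), one_div]

/-- the good tuples have no relation -/
lemma core [Nonempty ι] {σ : ℕ} (G : ι → K → ℕ → ℚ) (hG : ∀ i κ, Sm σ (G i κ)) {δ0 : ℝ} (hδ0 : 0 < δ0) :
    ∃ L : ℕ, ∀ η : ℝ, 0 < η → ∃ δ : ℝ, 0 < δ ∧ ∃ N0 : ℕ, ∀ N : ℕ, N0 ≤ N → ∀ s : ι → ℕ,
      (∀ i, σ ≤ s i ∧ s i ≤ N) → (∀ i, δ0 * N ≤ s i) →
      (∀ l ∈ cb ι L, ∀ l' ∈ cb ι L, l ≠ l' → η * N ≤ |lg s l - lg s l'|) →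
      ∀ c : (ι → K) → ℤ, (∀ e, |(c e : ℝ)| ≤ Real.exp (δ * N)) → (∃ l, fm G (fun e => (c e : ℚ)) l ≠ 0) →
        ev G (fun e => (c e : ℚ)) s ≠ 0 := by
  classical
  obtain ⟨A, hA, happ⟩ := approx G hG
  obtain ⟨L0, hL0⟩ := stab G
  set k : ℝ := (Fintype.card ι : ℝ) with hk
  have hk0 : 0 ≤ k := Nat.cast_nonneg _
  set lL : ℝ := Real.log ((L0 : ℝ) + 1) with hlL
  have hlL0 : 0 ≤ lL := Real.log_nonneg (by linarith [(Nat.cast_nonneg L0 : (0 : ℝ) ≤ L0)])
  set L : ℕ := max L0 ⌈Real.exp ((2 + k * lL) / δ0)⌉₊ with hL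
  have hLL : (2 + k * lL) / δ0 ≤ Real.log ((L : ℝ) + 1) := by
    rw [Real.le_log_iff_exp_le (by positivity)]
    have h1 : Real.exp ((2 + k * lL) / δ0) ≤ (L : ℝ) :=
      (Nat.le_ceil _).trans (by exact_mod_cast le_max_right _ _)
    linarith
  have hLL' : 2 + k * lL ≤ δ0 * Real.log ((L : ℝ) + 1) := by
    rw [div_le_iff₀ hδ0] at hLL
    linarith
  have hlogL : 0 ≤ Real.log ((L : ℝ) + 1) :=
    Real.log_nonneg (by linarith [(Nat.cast_nonneg L : (0 : ℝ) ≤ L)])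
  refine ⟨L, fun η hη => ?_⟩
  -- constants
  set C1 : ℝ := 1 + ∑ l ∈ cb ι L, ∑ e : ι → K, |∏ i, (G i (e i) (l i) : ℝ)| with hC1
  have hC10 : 0 < C1 := by
    have : 0 ≤ ∑ l ∈ cb ι L, ∑ e : ι → K, |∏ i, (G i (e i) (l i) : ℝ)| := by positivity
    linarith
  set Δ : ℕ := ∏ l ∈ cb ι L, ∏ e : ι → K, (∏ i, G i (e i) (l i)).den with hΔ
  have hΔ0 : 0 < Δ := prod_pos fun l _ => prod_pos fun e _ => Rat.den_pos _
  set A' : ℝ := 1 + (Fintype.card (ι → K) : ℝ) * A * Real.exp (σ * Real.log ((L : ℝ) + 1)) with hA'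
  have hA'0 : 0 < A' := by positivity
  refine ⟨min 1 (η / 2), by positivity, max ⌈4 * Δ * C1 / η⌉₊ ⌈2 * Δ * A'⌉₊, fun N hN s hs hsd hgap c hc hne => ?_⟩
  set δ := min 1 (η / 2) with hδ
  have hNn : (0 : ℝ) ≤ N := Nat.cast_nonneg _
  have hN1 : 4 * Δ * C1 / η ≤ N := (Nat.le_ceil _).trans (by exact_mod_cast (le_max_left _ _).trans hN)
  have hN2 : 2 * Δ * A' ≤ N := (Nat.le_ceil _).trans (by exact_mod_cast (le_max_right _ _).trans hN)
  have hΔr : (0 : ℝ) < Δ := by exact_mod_cast hΔ0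
  intro hev
  set F : (ι → ℕ) → ℚ := fun l => fm G (fun e => (c e : ℚ)) l with hF
  -- the leading coefficient
  obtain ⟨l0, hl0, hl0'⟩ : ∃ l ∈ cb ι L0, F l ≠ 0 := by
    by_contra hcon
    push Not at hcon
    obtain ⟨l, hl⟩ := hne
    exact hl (hL0 _ hcon l)
  have hl0L : l0 ∈ (cb ι L).filter fun l => F l ≠ 0 := by
    rw [mem_filter]
    exact ⟨mem_cb.2 fun i => (mem_cb.1 hl0 i).trans_le (le_max_left _ _), hl0'⟩
  obtain ⟨l1, hl1, hmin⟩ := exists_min_image _ (fun l => lg s l) ⟨l0, hl0L⟩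
  rw [mem_filter] at hl1
  obtain ⟨hl1m, hl1n⟩ := hl1
  have hΛ : lg s l1 ≤ k * lL * N := by
    refine (hmin l0 hl0L).trans ?_
    calc lg s l0 ≤ ∑ _i : ι, lL * N := by
          refine sum_le_sum fun i _ => mul_le_mul ?_ ?_ (Nat.cast_nonneg _) hlL0
          · refine Real.log_le_log (by positivity) ?_
            have := mem_cb.1 hl0 i
            have h2 : (l0 i : ℝ) ≤ L0 := by exact_mod_cast this.le
            linarith
          · exact_mod_cast (hs i).2
      _ = k * lL * N := by rw [sum_const, card_univ, nsmul_eq_mul]; ring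
  -- lower bound of the leading coefficient
  have hlow : 1 / (Δ : ℝ) ≤ |(F l1 : ℝ)| := by
    have h1 : ∃ z : ℤ, (Δ : ℚ) * F l1 = z := by
      have h2 : ∀ e : ι → K, ∃ z : ℤ, (Δ : ℚ) * ∏ i, G i (e i) (l1 i) = z := by
        intro e
        have h3 : (∏ i, G i (e i) (l1 i)).den ∣ Δ :=
          (dvd_prod_of_mem (fun e : ι → K => (∏ i, G i (e i) (l1 i)).den) (mem_univ e)).trans
            (dvd_prod_of_mem (fun l => ∏ e : ι → K, (∏ i, G i (e i) (l i)).den) hl1m)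
        obtain ⟨q, hq⟩ := h3
        refine ⟨(q : ℤ) * (∏ i, G i (e i) (l1 i)).num, ?_⟩
        rw [hq]
        push_cast
        generalize (∏ i, G i (e i) (l1 i)) = y
        have h4 := Rat.mul_den_eq_num y
        calc (y.den : ℚ) * q * y = q * (y * (y.den : ℚ)) := by ring
          _ = _ := by rw [h4]
      choose z hz using h2
      refine ⟨∑ e, c e * z e, ?_⟩
      rw [hF]
      simp only [fm]
      rw [mul_sum]
      push_cast
      refine sum_congr rfl fun e _ => ?_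
      rw [← hz e]
      ring
    obtain ⟨z, hz⟩ := h1
    have hz0 : z ≠ 0 := by
      rintro rfl
      rw [Int.cast_zero] at hz
      rcases mul_eq_zero.1 hz with h | h
      · exact hΔ0.ne' (by exact_mod_cast h)
      · exact hl1n h
    have h5 : (Δ : ℝ) * |(F l1 : ℝ)| = |(z : ℝ)| := by
      have h7 : (Δ : ℝ) * (F l1 : ℝ) = (z : ℝ) := by exact_mod_cast hz
      rw [← h7, abs_mul, abs_of_pos hΔr]
    have h6 : (1 : ℝ) ≤ |(z : ℝ)| := by exact_mod_cast Int.one_le_abs hz0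
    rw [div_le_iff₀ hΔr]
    linarith
  -- the other coefficients
  have hup : ∀ l, |(F l : ℝ)| ≤ Real.exp (δ * N) * ∑ e : ι → K, |∏ i, (G i (e i) (l i) : ℝ)| := by
    intro l
    rw [hF]
    simp only [fm]
    push_cast
    refine (abs_sum_le_sum_abs _ _).trans ?_
    rw [mul_sum]
    refine sum_le_sum fun e _ => ?_
    rw [abs_mul]
    exact mul_le_mul_of_nonneg_right (hc e) (abs_nonneg _)
  set T := (cb ι L).erase l1 with hT
  have hoth : |∑ l ∈ T, (F l : ℝ) * Real.exp (-lg s l)| ≤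
      C1 * Real.exp (δ * N - η * N) * Real.exp (-lg s l1) := by
    refine (abs_sum_le_sum_abs _ _).trans ?_
    calc ∑ l ∈ T, |(F l : ℝ) * Real.exp (-lg s l)| ≤
        ∑ l ∈ T, (∑ e : ι → K, |∏ i, (G i (e i) (l i) : ℝ)|) *
          (Real.exp (δ * N - η * N) * Real.exp (-lg s l1)) := by
          refine sum_le_sum fun l hl => ?_
          rw [hT, mem_erase] at hl
          by_cases h0 : F l = 0
          · rw [h0]
            simp only [Rat.cast_zero, zero_mul, abs_zero]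
            positivity
          · have h1 := hmin l (by rw [mem_filter]; exact ⟨hl.2, h0⟩)
            have h2 := hgap l hl.2 l1 hl1m hl.1
            rw [abs_of_nonneg (by linarith)] at h2
            have h3 : Real.exp (-lg s l) ≤ Real.exp (-(η * N)) * Real.exp (-lg s l1) := by
              rw [← Real.exp_add]
              exact Real.exp_le_exp.2 (by linarith)
            rw [abs_mul, abs_of_pos (Real.exp_pos _)]
            calc |(F l : ℝ)| * Real.exp (-lg s l) ≤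
                (Real.exp (δ * N) * ∑ e : ι → K, |∏ i, (G i (e i) (l i) : ℝ)|) *
                  (Real.exp (-(η * N)) * Real.exp (-lg s l1)) :=
                  mul_le_mul (hup l) h3 (Real.exp_pos _).le (by positivity)
              _ = _ := by
                  rw [sub_eq_add_neg, Real.exp_add]
                  ring
      _ = (∑ l ∈ T, ∑ e : ι → K, |∏ i, (G i (e i) (l i) : ℝ)|) *
          (Real.exp (δ * N - η * N) * Real.exp (-lg s l1)) := by rw [sum_mul]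
      _ ≤ C1 * (Real.exp (δ * N - η * N) * Real.exp (-lg s l1)) := by
          refine mul_le_mul_of_nonneg_right ?_ (by positivity)
          have : ∑ l ∈ T, ∑ e : ι → K, |∏ i, (G i (e i) (l i) : ℝ)| ≤
              ∑ l ∈ cb ι L, ∑ e : ι → K, |∏ i, (G i (e i) (l i) : ℝ)| :=
            sum_le_sum_of_subset_of_nonneg (erase_subset _ _) fun l _ _ => by positivity
          linarith
      _ = _ := by ring
  -- the tail
  have htail := happ (fun e => (c e : ℚ)) s L (Real.exp (σ * Real.log ((L : ℝ) + 1)) *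
    Real.exp (-(2 * N) - lg s l1)) (by positivity) (fun i => (hs i).1) (by
      intro i
      have h1 : (1 : ℝ) / ((L : ℝ) + 1) ^ (s i - σ) =
          Real.exp (-(Real.log ((L : ℝ) + 1) * ((s i : ℝ) - σ))) := by
        rw [Real.exp_neg, one_div]
        congr 1
        have h2 : ((s i : ℝ) - σ) = ((s i - σ : ℕ) : ℝ) := by rw [Nat.cast_sub (hs i).1]
        rw [h2, mul_comm, Real.exp_nat_mul, Real.exp_log (by positivity)]
      rw [h1, ← Real.exp_add]
      refine Real.exp_le_exp.2 ?_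
      have h3 : Real.log ((L : ℝ) + 1) * (δ0 * N) ≤ Real.log ((L : ℝ) + 1) * s i :=
        mul_le_mul_of_nonneg_left (hsd i) hlogL
      have h4 : (2 + k * lL) * N ≤ δ0 * Real.log ((L : ℝ) + 1) * N :=
        mul_le_mul_of_nonneg_right hLL' hNn
      nlinarith)
  rw [hev] at htail
  have hsum : ∑ l ∈ cb ι L, (fm G (fun e => (c e : ℚ)) l : ℝ) * ∏ i, (1 / ((l i : ℝ) + 1) ^ s i) =
      (F l1 : ℝ) * Real.exp (-lg s l1) + ∑ l ∈ T, (F l : ℝ) * Real.exp (-lg s l) := by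
    rw [hT, add_sum_erase _ (fun l => (F l : ℝ) * Real.exp (-lg s l)) hl1m]
    exact sum_congr rfl fun l _ => by rw [wt_eq]
  rw [hsum, zero_sub, abs_neg] at htail
  have hcs : ∑ e : ι → K, |(((c e : ℤ) : ℚ) : ℝ)| ≤ (Fintype.card (ι → K) : ℝ) * Real.exp (δ * N) := by
    calc ∑ e : ι → K, |(((c e : ℤ) : ℚ) : ℝ)| ≤ ∑ _e : ι → K, Real.exp (δ * N) :=
          sum_le_sum fun e _ => by simpa using hc e
      _ = _ := by rw [sum_const, card_univ, nsmul_eq_mul]
  have h1 : |(F l1 : ℝ)| * Real.exp (-lg s l1) ≤ C1 * Real.exp (δ * N - η * N) * Real.exp (-lg s l1) +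
      A' * Real.exp (δ * N - 2 * N) * Real.exp (-lg s l1) := by
    have h2 : |(F l1 : ℝ) * Real.exp (-lg s l1)| ≤
        |(F l1 : ℝ) * Real.exp (-lg s l1) + ∑ l ∈ T, (F l : ℝ) * Real.exp (-lg s l)| +
        |∑ l ∈ T, (F l : ℝ) * Real.exp (-lg s l)| := by
      have := abs_sub ((F l1 : ℝ) * Real.exp (-lg s l1) + ∑ l ∈ T, (F l : ℝ) * Real.exp (-lg s l))
        (∑ l ∈ T, (F l : ℝ) * Real.exp (-lg s l))
      rwa [add_sub_cancel_right] at this
    rw [abs_mul, abs_of_pos (Real.exp_pos (-lg s l1))] at h2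
    have h3 : (∑ e : ι → K, |(((c e : ℤ) : ℚ) : ℝ)|) * (A * (Real.exp (σ * Real.log ((L : ℝ) + 1)) *
        Real.exp (-(2 * N) - lg s l1))) ≤ A' * Real.exp (δ * N - 2 * N) * Real.exp (-lg s l1) := by
      calc (∑ e : ι → K, |(((c e : ℤ) : ℚ) : ℝ)|) * (A * (Real.exp (σ * Real.log ((L : ℝ) + 1)) *
          Real.exp (-(2 * N) - lg s l1))) ≤ ((Fintype.card (ι → K) : ℝ) * Real.exp (δ * N)) *
            (A * (Real.exp (σ * Real.log ((L : ℝ) + 1)) * Real.exp (-(2 * N) - lg s l1))) :=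
            mul_le_mul_of_nonneg_right hcs (by positivity)
        _ = ((Fintype.card (ι → K) : ℝ) * A * Real.exp (σ * Real.log ((L : ℝ) + 1))) *
            (Real.exp (δ * N - 2 * N) * Real.exp (-lg s l1)) := by
            rw [← Real.exp_add (δ * N - 2 * N), show δ * N - 2 * N + -lg s l1 =
              δ * N + (-(2 * N) - lg s l1) by ring, Real.exp_add (δ * N)]
            ring
        _ ≤ A' * (Real.exp (δ * N - 2 * N) * Real.exp (-lg s l1)) :=
            mul_le_mul_of_nonneg_right (by rw [hA']; linarith) (by positivity)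
        _ = _ := by ring
    linarith
  have h2 : |(F l1 : ℝ)| ≤ C1 * Real.exp (δ * N - η * N) + A' * Real.exp (δ * N - 2 * N) := by
    have h3 := Real.exp_pos (-lg s l1)
    rw [← add_mul] at h1
    exact le_of_mul_le_mul_right h1 h3
  have h3 : C1 * Real.exp (δ * N - η * N) < 1 / (2 * Δ) := by
    have e1 : Real.exp (δ * N - η * N) ≤ Real.exp (-(η / 2 * N)) := by
      refine Real.exp_le_exp.2 ?_
      have : δ * N ≤ η / 2 * N := mul_le_mul_of_nonneg_right (min_le_right _ _) hNn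
      linarith
    have e2 : 2 * Δ * C1 < Real.exp (η / 2 * N) := by
      have e3 := Real.add_one_le_exp (η / 2 * N)
      rw [div_le_iff₀ hη] at hN1
      linarith
    rw [Real.exp_neg] at e1
    calc C1 * Real.exp (δ * N - η * N) ≤ C1 * (Real.exp (η / 2 * N))⁻¹ :=
          mul_le_mul_of_nonneg_left e1 hC10.le
      _ < 1 / (2 * Δ) := by
          rw [← div_eq_mul_inv, div_lt_div_iff₀ (Real.exp_pos _) (by positivity)]
          linarith
  have h4 : A' * Real.exp (δ * N - 2 * N) < 1 / (2 * Δ) := by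
    have e1 : Real.exp (δ * N - 2 * N) ≤ Real.exp (-(N : ℝ)) := by
      refine Real.exp_le_exp.2 ?_
      have : δ * N ≤ 1 * N := mul_le_mul_of_nonneg_right (min_le_left _ _) hNn
      linarith
    have e2 : 2 * Δ * A' < Real.exp N := by
      have e3 := Real.add_one_le_exp (N : ℝ)
      linarith
    rw [Real.exp_neg] at e1
    calc A' * Real.exp (δ * N - 2 * N) ≤ A' * (Real.exp N)⁻¹ :=
          mul_le_mul_of_nonneg_left e1 hA'0.le
      _ < 1 / (2 * Δ) := by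
          rw [← div_eq_mul_inv, div_lt_div_iff₀ (Real.exp_pos _) (by positivity)]
          linarith
  have h5 : 1 / (2 * (Δ : ℝ)) + 1 / (2 * Δ) = 1 / Δ := by
    field_simp
    norm_num
  linarith

end main

/-- **relations with integer coefficients are rare** -/
theorem pureAll (σ : ℕ) : Pure σ := by
  intro ι _ _ _ K _ G hG s0 hs0 ε hε
  classical
  set k : ℕ := Fintype.card ι with hk
  have hk1 : 1 ≤ k := Fintype.card_pos
  have hkr : (0 : ℝ) < k := by exact_mod_cast hk1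
  set δ0 : ℝ := ε / (8 * k) with hδ0
  have hδ00 : 0 < δ0 := by positivity
  obtain ⟨L, hcore⟩ := core G hG hδ00
  -- the hyperplanes
  have hch : ∀ p : (ι → ℕ) × (ι → ℕ), ∃ C : ℝ, 0 < C ∧ (p.1 ≠ p.2 → ∀ N : ℕ, ∀ H : ℝ, 0 ≤ H →
      (((box ι s0 N).filter fun s => |lg s p.1 - lg s p.2| < H).card : ℝ) ≤
        (C * H + 1) * (N : ℝ) ^ (k - 1)) := by
    intro p
    by_cases hp : p.1 = p.2
    · exact ⟨1, one_pos, fun h => absurd hp h⟩
    set lam : ι → ℝ := fun i => Real.log ((p.1 i : ℝ) + 1) - Real.log ((p.2 i : ℝ) + 1) with hlam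
    have hl : lam ≠ 0 := by
      intro h
      apply hp
      funext i
      have h1 : Real.log ((p.1 i : ℝ) + 1) = Real.log ((p.2 i : ℝ) + 1) := by
        have := congrFun h i
        simp only [hlam, Pi.zero_apply] at this
        linarith
      have h2 := Real.log_injOn_pos (show ((p.1 i : ℝ) + 1) ∈ Set.Ioi 0 from by
        rw [Set.mem_Ioi]; positivity) (show ((p.2 i : ℝ) + 1) ∈ Set.Ioi 0 from by
        rw [Set.mem_Ioi]; positivity) h1
      have h3 : (p.1 i : ℝ) = p.2 i := by linarith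
      exact_mod_cast h3
    obtain ⟨C, hC, h⟩ := hyper lam hl
    refine ⟨C, hC, fun _ N H hH => ?_⟩
    have h1 := h s0 N (by omega) H hH
    have h2 : ∀ s : ι → ℕ, lg s p.1 - lg s p.2 = ∑ i, lam i * (s i : ℝ) := by
      intro s
      rw [lg, lg, ← sum_sub_distrib]
      exact sum_congr rfl fun i _ => by rw [hlam]; ring
    simp only [h2]
    convert h1 using 1
  choose C hC hCh using hch
  set Pt : Finset ((ι → ℕ) × (ι → ℕ)) := (cb ι L ×ˢ cb ι L).filter fun p => p.1 ≠ p.2 with hPt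
  set B : ℝ := 1 + ∑ p ∈ Pt, C p with hB
  have hB0 : 0 < B := by
    have : 0 ≤ ∑ p ∈ Pt, C p := sum_nonneg fun p _ => (hC p).le
    linarith
  set η : ℝ := ε / (4 * B) with hη
  have hη0 : 0 < η := by positivity
  obtain ⟨δ, hδ, N0, hmain⟩ := hcore η hη0
  refine ⟨δ, hδ, max N0 (max 1 ⌈2 * ((k : ℝ) + Pt.card) / ε⌉₊), fun N hN => ?_⟩
  have hN0 : N0 ≤ N := (le_max_left _ _).trans hN
  have hN1 : 1 ≤ N := (le_max_left _ _).trans ((le_max_right _ _).trans hN)
  have hN2 : 2 * ((k : ℝ) + Pt.card) / ε ≤ N := (Nat.le_ceil _).trans (by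
    exact_mod_cast (le_max_right _ _).trans ((le_max_right _ _).trans hN))
  have hNr : (0 : ℝ) ≤ N := Nat.cast_nonneg _
  set Q : ℝ := (N : ℝ) ^ (k - 1) with hQ
  have hQ0 : 0 ≤ Q := by positivity
  have hQN : (N : ℝ) ^ k = Q * N := by
    rw [hQ, ← pow_succ]
    congr 1
    omega
  set S1 : ι → Finset (ι → ℕ) := fun i => (box ι s0 N).filter fun s =>
    |∑ j, ((Pi.single i (1 : ℤ) : ι → ℤ) j : ℝ) * (1 * (s j : ℝ))| < δ0 * N with hS1
  set S2 : (ι → ℕ) × (ι → ℕ) → Finset (ι → ℕ) := fun p => (box ι s0 N).filter fun s =>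
    |lg s p.1 - lg s p.2| < η * N with hS2
  have hsub : Bad G (fun _ : Fin 1 => (1 : ℂ)) s0 N (δ * N) ⊆ (univ.biUnion S1) ∪ (Pt.biUnion S2) := by
    intro s hs
    rw [mem_Bad] at hs
    obtain ⟨hb, a, ⟨l, j, hl⟩, haC, hrel⟩ := hs
    by_contra hcon
    rw [mem_union, not_or] at hcon
    obtain ⟨hc1, hc2⟩ := hcon
    have hbox : s ∈ box ι s0 N := mem_box.2 hb
    have hj : j = 0 := Subsingleton.elim _ _
    rw [hj] at hl
    refine hmain N hN0 s (fun i => ⟨by have := (hb i).1; omega, (hb i).2⟩) (fun i => ?_)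
      (fun l hl l' hl' hne => ?_) (fun e => a e 0) (fun e => haC e 0) ⟨l, hl⟩ ?_
    · by_contra hlt
      push Not at hlt
      apply hc1
      rw [mem_biUnion]
      refine ⟨i, mem_univ _, ?_⟩
      rw [hS1]
      simp only
      rw [mem_filter]
      refine ⟨hbox, ?_⟩
      have h1 : ∑ j, ((Pi.single i (1 : ℤ) : ι → ℤ) j : ℝ) * (1 * (s j : ℝ)) = s i := by
        rw [sum_eq_single i]
        · simp
        · intro j _ hj
          rw [Pi.single_eq_of_ne hj]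
          simp
        · intro h
          exact absurd (mem_univ _) h
      rw [h1, abs_of_nonneg (Nat.cast_nonneg _)]
      exact hlt
    · by_contra hlt
      push Not at hlt
      apply hc2
      rw [mem_biUnion]
      refine ⟨(l, l'), ?_, ?_⟩
      · rw [hPt, mem_filter, mem_product]
        exact ⟨⟨hl, hl'⟩, hne⟩
      · rw [hS2]
        simp only
        rw [mem_filter]
        exact ⟨hbox, hlt⟩
    · rw [Fin.sum_univ_one, one_mul] at hrel
      exact_mod_cast hrel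
  have hb1 : ∀ i, ((S1 i).card : ℝ) ≤ (2 * (δ0 * N) / 1 + 1) * Q := by
    intro i
    have h := card_hyper (ι := ι) (s0 := s0) (N := N) (by omega) (fun _ => (1 : ℝ)) one_pos
      (fun _ => le_rfl) (Pi.single i 1) (by
        intro h0
        have := congrFun h0 i
        simp at this) (H := δ0 * N) (by positivity)
    convert h using 1
  have hb2 : ∀ p ∈ Pt, ((S2 p).card : ℝ) ≤ (C p * (η * N) + 1) * Q := by
    intro p hp
    rw [hPt, mem_filter] at hp
    exact hCh p hp.2 N (η * N) (by positivity)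
  have h1 : ((Bad G (fun _ : Fin 1 => (1 : ℂ)) s0 N (δ * N)).card : ℝ) ≤
      ∑ i, ((S1 i).card : ℝ) + ∑ p ∈ Pt, ((S2 p).card : ℝ) := by
    have h2 := (card_le_card hsub).trans (card_union_le _ _)
    have h3 : (univ.biUnion S1).card ≤ ∑ i, (S1 i).card := card_biUnion_le
    have h4 : (Pt.biUnion S2).card ≤ ∑ p ∈ Pt, (S2 p).card := card_biUnion_le
    exact_mod_cast h2.trans (Nat.add_le_add h3 h4)
  have h2 : ∑ i, ((S1 i).card : ℝ) ≤ k * ((2 * (δ0 * N) / 1 + 1) * Q) := by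
    refine (sum_le_sum fun i _ => hb1 i).trans_eq ?_
    rw [sum_const, card_univ, nsmul_eq_mul]
  have h3 : ∑ p ∈ Pt, ((S2 p).card : ℝ) ≤ (B * (η * N) + Pt.card) * Q := by
    refine (sum_le_sum hb2).trans ?_
    rw [← sum_mul, sum_add_distrib, ← sum_mul, sum_const, nsmul_eq_mul, mul_one]
    refine mul_le_mul_of_nonneg_right ?_ hQ0
    have : (∑ p ∈ Pt, C p) * (η * N) ≤ B * (η * N) :=
      mul_le_mul_of_nonneg_right (by rw [hB]; linarith) (by positivity)
    linarith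
  have h4 : (k : ℝ) * (2 * (δ0 * N) / 1 + 1) = ε / 4 * N + k := by
    rw [hδ0]
    field_simp
    ring
  have h5 : B * (η * N) = ε / 4 * N := by
    rw [hη]
    field_simp
  have h6 : (k : ℝ) + Pt.card ≤ ε / 2 * N := by
    rw [div_le_iff₀ hε] at hN2
    linarith
  calc ((Bad G (fun _ : Fin 1 => (1 : ℂ)) s0 N (δ * N)).card : ℝ) ≤
      k * ((2 * (δ0 * N) / 1 + 1) * Q) + (B * (η * N) + Pt.card) * Q := by linarith
    _ = (ε / 2 * N + ((k : ℝ) + Pt.card)) * Q := by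
        rw [← mul_assoc, h4, h5]
        ring
    _ ≤ (ε / 2 * N + ε / 2 * N) * Q := mul_le_mul_of_nonneg_right (by linarith) hQ0
    _ = ε * (N : ℝ) ^ k := by rw [hQN]; ring

end Pool.Agent.X90.DM
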