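import Pool.Agent.X90.DM.Wrd
import Pool.Agent.X90.DM.Hs

/-!
# Linear independence of nested sums with exponentials over the rational functions
-/

set_option autoImplicit false

namespace Pool.Agent.X90.DM

open Finset Filter Polynomial

lemma reg_down' {T Q S : ℂ[X]} {A : ℕ} {ξ : ℂ} (hQ : Q ≠ 0)
    (h : X ^ A * (C ξ * (Q * taylor 1 T) - taylor 1 Q * T) + Q * taylor 1 Q * S = 0) {T' Q' : ℂ[X]}
    (h1 : T * Q' = T' * Q) :
    T * (X ^ A * taylor 1 Q') = (X ^ A * (C ξ * taylor 1 T') + S * taylor 1 Q') * Q := by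
  have h2 : taylor 1 T * taylor 1 Q' = taylor 1 T' * taylor 1 Q := by
    rw [← taylor_mul, ← taylor_mul, h1]
  have h3 : taylor 1 Q * (T * (X ^ A * taylor 1 Q')) =
      taylor 1 Q * ((X ^ A * (C ξ * taylor 1 T') + S * taylor 1 Q') * Q) := by
    linear_combination (-taylor 1 Q') * h + X ^ A * C ξ * Q * h2
  exact mul_left_cancel₀ (taylor_ne hQ 1) h3

lemma reg_step_down' {T Q S : ℂ[X]} {A : ℕ} {ξ : ℂ} (hQ : Q ≠ 0)
    (h : X ^ A * (C ξ * (Q * taylor 1 T) - taylor 1 Q * T) + Q * taylor 1 Q * S = 0) {j : ℂ} (hj : j ≠ 0)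
    (hr : Reg T Q (j + 1)) : Reg T Q j := by
  obtain ⟨T', Q', h0, h1⟩ := hr
  refine ⟨_, _, ?_, reg_down' hQ h h1⟩
  rw [eval_mul, eval_pow, eval_X, taylor_eval]
  exact mul_ne_zero (pow_ne_zero _ hj) h0

lemma reg_step_up' {T Q S : ℂ[X]} {A : ℕ} {ξ : ℂ} (hξ : ξ ≠ 0) (hQ : Q ≠ 0)
    (h : X ^ A * (C ξ * (Q * taylor 1 T) - taylor 1 Q * T) + Q * taylor 1 Q * S = 0) {j : ℂ} (hj : j ≠ 0)
    (hr : Reg T Q j) : Reg T Q (j + 1) := by
  obtain ⟨T', Q', h0, h1⟩ := hr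
  have h2 : taylor 1 T * (C ξ * X ^ A * Q') = (X ^ A * T' - S * Q') * taylor 1 Q := by
    have h3 : Q * (taylor 1 T * (C ξ * X ^ A * Q')) = Q * ((X ^ A * T' - S * Q') * taylor 1 Q) := by
      linear_combination Q' * h + X ^ A * taylor 1 Q * h1
    exact mul_left_cancel₀ hQ h3
  have h4 : ∀ P : ℂ[X], taylor (-1) (taylor 1 P) = P := by
    intro P
    rw [taylor_taylor, neg_add_cancel, taylor_zero]
  refine ⟨taylor (-1) (X ^ A * T' - S * Q'), taylor (-1) (C ξ * X ^ A * Q'), ?_, ?_⟩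
  · rw [taylor_eval, eval_mul, eval_mul, eval_C, eval_pow, eval_X]
    rw [add_neg_cancel_right]
    exact mul_ne_zero (mul_ne_zero hξ (pow_ne_zero _ hj)) h0
  · have h5 := congrArg (taylor (-1)) h2
    simp only [taylor_mul, h4] at h5 ⊢
    exact h5

lemma pole' {T Q S : ℂ[X]} {A : ℕ} {ξ : ℂ} (hξ : ξ ≠ 0) (hQ : Q ≠ 0) (hS : S ≠ 0) (hd : S.natDegree < A)
    (h : X ^ A * (C ξ * (Q * taylor 1 T) - taylor 1 Q * T) + Q * taylor 1 Q * S = 0) : False := by
  have hreg : ∀ j : ℂ, Q.eval j ≠ 0 → Reg T Q j := fun j hj => ⟨T, Q, hj, rfl⟩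
  have h1 : Reg T Q 1 := by
    obtain ⟨J, hJ⟩ := exists_nonroot hQ (fun J : ℕ => (J : ℂ) + 1) (fun a b hab => by simpa using hab)
    have h2 : ∀ i : ℕ, Reg T Q ((i : ℂ) + 1) → Reg T Q 1 := by
      intro i
      induction i with
      | zero => intro hi; simpa using hi
      | succ i ih =>
        intro hi
        refine ih (reg_step_down' hQ h ?_ ?_)
        · exact_mod_cast Nat.succ_ne_zero i
        · push_cast at hi
          exact hi
    exact h2 J (hreg _ hJ)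
  have h0 : Reg T Q 0 := by
    obtain ⟨J, hJ⟩ := exists_nonroot hQ (fun J : ℕ => -(J : ℂ)) (fun a b hab => by simpa using hab)
    have h2 : ∀ i : ℕ, Reg T Q (-(i : ℂ)) → Reg T Q 0 := by
      intro i
      induction i with
      | zero => intro hi; simpa using hi
      | succ i ih =>
        intro hi
        refine ih ?_
        have h3 := reg_step_up' hξ hQ h (j := -((i + 1 : ℕ) : ℂ))
          (neg_ne_zero.2 (by exact_mod_cast Nat.succ_ne_zero i)) hi
        have h4 : -((i + 1 : ℕ) : ℂ) + 1 = -(i : ℂ) := by push_cast; ring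
        rwa [h4] at h3
    exact h2 J (hreg _ hJ)
  obtain ⟨T1, Q1, hq1, e1⟩ := h1
  obtain ⟨T0, Q0, hq0, e0⟩ := h0
  have e2 := reg_down' hQ h e1
  have e3 : T0 * (X ^ A * taylor 1 Q1) = Q0 * (X ^ A * (C ξ * taylor 1 T1) + S * taylor 1 Q1) := by
    have e4 : Q * (T0 * (X ^ A * taylor 1 Q1)) =
        Q * (Q0 * (X ^ A * (C ξ * taylor 1 T1) + S * taylor 1 Q1)) := by
      linear_combination Q0 * e2 - (X ^ A * taylor 1 Q1) * e0
    exact mul_left_cancel₀ hQ e4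
  have hdiv : (X : ℂ[X]) ^ A ∣ (Q0 * taylor 1 Q1) * S :=
    ⟨T0 * taylor 1 Q1 - Q0 * (C ξ * taylor 1 T1), by linear_combination -e3⟩
  have hnd : ¬ (X : ℂ[X]) ∣ Q0 * taylor 1 Q1 := by
    rw [X_dvd_iff, coeff_zero_eq_eval_zero, eval_mul, taylor_eval, zero_add]
    exact mul_ne_zero hq0 hq1
  have h5 := Polynomial.prime_X.pow_dvd_of_dvd_mul_left A hnd hdiv
  have h6 := natDegree_le_of_dvd h5 hS
  rw [natDegree_X_pow] at h6
  omega

lemma leads {P Q : ℂ[X]} {z z0 : ℂ} (hz : z ≠ z0) (hQ : Q ≠ 0)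
    (h : C z * (Q * taylor 1 P) = C z0 * (taylor 1 Q * P)) : P = 0 := by
  by_contra hP
  have h1 := congrArg (fun R : ℂ[X] => R.coeff (Q.natDegree + P.natDegree)) h
  simp only [coeff_C_mul] at h1
  have e1 : (Q * taylor 1 P).coeff (Q.natDegree + P.natDegree) = Q.leadingCoeff * P.leadingCoeff := by
    have h2 : (taylor 1 P).natDegree = P.natDegree := natDegree_taylor P 1
    rw [← h2, coeff_mul_degree_add_degree, leadingCoeff_taylor]
  have e2 : (taylor 1 Q * P).coeff (Q.natDegree + P.natDegree) = Q.leadingCoeff * P.leadingCoeff := by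
    have h2 : (taylor 1 Q).natDegree = Q.natDegree := natDegree_taylor Q 1
    rw [← h2, coeff_mul_degree_add_degree, leadingCoeff_taylor]
  rw [e1, e2] at h1
  exact hz (mul_right_cancel₀ (mul_ne_zero (leadingCoeff_ne_zero.2 hQ) (leadingCoeff_ne_zero.2 hP)) h1)

end Pool.Agent.X90.DM
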