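import Pool.Agent.X90.DM.Gen

/-!
# Multiple polylogarithms at roots of unity with one large argument as Dirichlet series
-/

set_option autoImplicit false

namespace Pool.Agent.X90.DM

open Finset Filter Topology

/-- functions with finitely many rational coordinates of polynomial growth -/
def Ff (d : ℕ) (θ : ℕ → ℂ) : Prop := ∃ (κ : Type) (_ : Fintype κ) (a : κ → ℂ) (φ : κ → ℕ → ℚ) (B : ℝ),
  0 ≤ B ∧ (∀ ν l, |(φ ν l : ℝ)| ≤ B * ((l : ℝ) + 1) ^ d) ∧ ∀ l, θ l = ∑ ν, a ν * (φ ν l : ℂ)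

lemma Ff.mono {d d' : ℕ} (hd : d ≤ d') {θ : ℕ → ℂ} (h : Ff d θ) : Ff d' θ := by
  obtain ⟨κ, i1, a, φ, B, hB, h1, h2⟩ := h
  refine ⟨κ, i1, a, φ, B, hB, fun ν l => (h1 ν l).trans ?_, h2⟩
  refine mul_le_mul_of_nonneg_left ?_ hB
  exact pow_le_pow_right₀ (by linarith [(Nat.cast_nonneg l : (0 : ℝ) ≤ l)]) hd

lemma Ff.const (c : ℂ) : Ff 0 fun _ => c :=
  ⟨Unit, inferInstance, fun _ => c, fun _ _ => 1, 1, zero_le_one, fun _ l => by simp, fun l => by simp⟩

lemma Ff.mul {d d' : ℕ} {θ ψ : ℕ → ℂ} (h : Ff d θ) (h' : Ff d' ψ) : Ff (d + d') fun l => θ l * ψ l := by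
  obtain ⟨κ, i1, a, φ, B, hB, h1, h2⟩ := h
  obtain ⟨κ', i2, a', φ', B', hB', h1', h2'⟩ := h'
  refine ⟨κ × κ', inferInstance, fun p => a p.1 * a' p.2, fun p l => φ p.1 l * φ' p.2 l, B * B',
    mul_nonneg hB hB', fun p l => ?_, fun l => ?_⟩
  · push_cast
    rw [abs_mul, pow_add]
    calc |(φ p.1 l : ℝ)| * |(φ' p.2 l : ℝ)| ≤ (B * ((l : ℝ) + 1) ^ d) * (B' * ((l : ℝ) + 1) ^ d') :=
          mul_le_mul (h1 _ _) (h1' _ _) (abs_nonneg _) (by positivity)
      _ = _ := by ring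
  · change θ l * ψ l = ∑ p : κ × κ', (a p.1 * a' p.2) * ((φ p.1 l * φ' p.2 l : ℚ) : ℂ)
    rw [h2 l, h2' l, sum_mul_sum, Fintype.sum_prod_type]
    refine sum_congr rfl fun ν _ => sum_congr rfl fun ν' _ => ?_
    push_cast
    ring

lemma Ff.neg {d : ℕ} {θ : ℕ → ℂ} (h : Ff d θ) : Ff d fun l => -θ l := by
  have := (Ff.const (-1)).mul h
  rw [Nat.zero_add] at this
  refine (congrArg (Ff d) (funext fun l => ?_)).mp this
  simp

lemma Ff.psum {d : ℕ} {θ : ℕ → ℂ} (h : Ff d θ) (c : ℕ) :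
    Ff (d + 1) fun m => ∑ j ∈ Ico 1 (m + c), θ j := by
  obtain ⟨κ, i1, a, φ, B, hB, h1, h2⟩ := h
  refine ⟨κ, i1, a, fun ν m => ∑ j ∈ Ico 1 (m + c), φ ν j, B * ((c : ℝ) + 1) ^ (d + 1), by positivity,
    fun ν m => ?_, fun m => ?_⟩
  · push_cast
    refine (abs_sum_le_sum_abs _ _).trans ?_
    have hm : (0 : ℝ) ≤ m := Nat.cast_nonneg m
    have hc : (0 : ℝ) ≤ c := Nat.cast_nonneg c
    calc ∑ j ∈ Ico 1 (m + c), |(φ ν j : ℝ)| ≤ ∑ _j ∈ Ico 1 (m + c), B * ((m : ℝ) + c + 1) ^ d := by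
          refine sum_le_sum fun j hj => (h1 ν j).trans ?_
          refine mul_le_mul_of_nonneg_left (pow_le_pow_left₀ (by positivity) ?_ _) hB
          have h3 : (j : ℝ) ≤ ((m + c : ℕ) : ℝ) := by exact_mod_cast (mem_Ico.1 hj).2.le
          push_cast at h3
          linarith
      _ ≤ ((m : ℝ) + c + 1) * (B * ((m : ℝ) + c + 1) ^ d) := by
          rw [sum_const, nsmul_eq_mul, Nat.card_Ico]
          refine mul_le_mul_of_nonneg_right ?_ (by positivity)
          have h3 : ((m + c - 1 : ℕ) : ℝ) ≤ ((m + c : ℕ) : ℝ) := by exact_mod_cast Nat.sub_le _ _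
          push_cast at h3
          linarith
      _ = B * ((m : ℝ) + c + 1) ^ (d + 1) := by ring
      _ ≤ B * (((c : ℝ) + 1) * ((m : ℝ) + 1)) ^ (d + 1) := by
          refine mul_le_mul_of_nonneg_left (pow_le_pow_left₀ (by positivity) ?_ _) hB
          nlinarith
      _ = B * ((c : ℝ) + 1) ^ (d + 1) * ((m : ℝ) + 1) ^ (d + 1) := by rw [mul_pow]; ring
  · simp only [h2]
    rw [sum_comm]
    refine sum_congr rfl fun ν _ => ?_
    push_cast
    rw [mul_sum]

/-- powers of a root of unity -/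
lemma Ff.root {n : ℕ} (hn : 1 ≤ n) {z : ℂ} (hz : z ^ n = 1) : Ff 0 fun l => z ^ l := by
  classical
  refine ⟨Fin n, inferInstance, fun ν => z ^ (ν : ℕ), fun ν l => if (ν : ℕ) = l % n then 1 else 0, 1,
    zero_le_one, fun ν l => ?_, fun l => ?_⟩
  · by_cases h : (ν : ℕ) = l % n <;> simp [h]
  · have h1 : l % n < n := Nat.mod_lt _ hn
    rw [sum_eq_single ⟨l % n, h1⟩]
    · simp only [if_true, Rat.cast_one, mul_one]
      conv_lhs => rw [← Nat.mod_add_div l n, pow_add, pow_mul, hz, one_pow, mul_one]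
    · intro ν _ hν
      have h2 : (ν : ℕ) ≠ l % n := fun h => hν (Fin.ext h)
      simp [h2]
    · intro h
      exact absurd (mem_univ _) h

lemma Ff.inv (a : ℕ) : Ff 0 fun l => 1 / (l : ℂ) ^ a := by
  refine ⟨Unit, inferInstance, fun _ => 1, fun _ l => 1 / (l : ℚ) ^ a, 1, zero_le_one, fun _ l => ?_,
    fun l => ?_⟩
  · push_cast
    rw [pow_zero, mul_one, abs_of_nonneg (by positivity)]
    rcases Nat.eq_zero_or_pos l with h | h
    · subst h
      rcases Nat.eq_zero_or_pos a with h | h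
      · subst h; simp
      · rw [Nat.cast_zero, zero_pow (by omega)]
        simp
    · rw [div_le_one (by positivity)]
      exact one_le_pow₀ (by exact_mod_cast h)
  · rw [univ_unique, sum_singleton]
    push_cast
    rw [one_mul]

lemma Ff.letter {n : ℕ} (hn : 1 ≤ n) {z : ℂ} (hz : z ^ n = 1) (a : ℕ) :
    Ff 0 fun l => z ^ l / (l : ℂ) ^ a := by
  have h := (Ff.root hn hz).mul (Ff.inv a)
  refine (congrArg (Ff 0) (funext fun l => ?_)).mp h
  rw [mul_one_div]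

/-- truncated sums -/
noncomputable def trunc : List (ℕ × ℂ) → ℕ → ℂ
  | [], _ => 1
  | p :: l, m => ∑ j ∈ Finset.Ico 1 m, p.2 ^ j / (j : ℂ) ^ p.1 * trunc l j

/-- the sums over `L > l_1 > ... > l_r > m` -/
noncomputable def R : List (ℕ × ℂ) → ℕ → ℕ → ℂ
  | [], _, _ => 1
  | p :: l, m, L => ∑ j ∈ Finset.Ico (m + 1) L, p.2 ^ j / (j : ℂ) ^ p.1 * R l m j

/-- all numbers in the list are roots of unity -/
def Ru (n : ℕ) (p : List (ℕ × ℂ)) : Prop := ∀ x ∈ p, x.2 ^ n = 1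

lemma Ff_trunc {n : ℕ} (hn : 1 ≤ n) (u : List (ℕ × ℂ)) (hu : Ru n u) : Ff u.length (trunc u) := by
  induction u with
  | nil => exact Ff.const 1
  | cons x u ih =>
    have h1 := ((Ff.letter hn (hu x List.mem_cons_self) x.1).mul
      (ih fun y hy => hu y (List.mem_cons_of_mem _ hy))).psum 0
    rw [Nat.zero_add] at h1
    exact h1

lemma R_zero (p : List (ℕ × ℂ)) : ∀ L, R p 0 L = trunc p L := by
  induction p with
  | nil => intro L; rfl
  | cons x p ih =>
    intro L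
    rw [R, trunc]
    exact sum_congr rfl fun j _ => by rw [ih]

lemma tri (m L : ℕ) (F : ℕ → ℕ → ℂ) : ∑ i ∈ Ico (m + 1) L, ∑ j ∈ Ico (m + 1) i, F i j =
    ∑ j ∈ Ico (m + 1) L, ∑ i ∈ Ico (j + 1) L, F i j := by
  refine sum_comm' fun i j => ?_
  simp only [mem_Ico]
  omega

lemma R_snoc (p : List (ℕ × ℂ)) (y : ℕ × ℂ) (m : ℕ) : ∀ L, R (p ++ [y]) m L =
    ∑ j ∈ Ico (m + 1) L, y.2 ^ j / (j : ℂ) ^ y.1 * R p j L := by
  induction p with
  | nil =>
    intro L
    rw [List.nil_append, R]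
    rfl
  | cons x p ih =>
    intro L
    rw [List.cons_append, R]
    simp only [ih, mul_sum]
    rw [tri m L fun i j => x.2 ^ i / (i : ℂ) ^ x.1 * (y.2 ^ j / (j : ℂ) ^ y.1 * R p j i)]
    refine sum_congr rfl fun j _ => ?_
    rw [R, mul_sum]
    exact sum_congr rfl fun i _ => by ring

lemma trunc_app (p : List (ℕ × ℂ)) (x : ℕ × ℂ) (u : List (ℕ × ℂ)) : ∀ L, trunc (p ++ x :: u) L =
    ∑ l ∈ Ico 1 L, x.2 ^ l / (l : ℂ) ^ x.1 * trunc u l * R p l L := by
  induction p with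
  | nil =>
    intro L
    rw [List.nil_append, trunc]
    exact sum_congr rfl fun l _ => by rw [R, mul_one]
  | cons y p ih =>
    intro L
    rw [List.cons_append, trunc]
    simp only [ih, mul_sum]
    rw [tri 0 L fun i j => y.2 ^ i / (i : ℂ) ^ y.1 * (x.2 ^ j / (j : ℂ) ^ x.1 * trunc u j * R p j i)]
    refine sum_congr rfl fun j _ => ?_
    rw [R, mul_sum]
    exact sum_congr rfl fun i _ => by ring

/-- the sums of the initial parts converge -/
def Cv (p : List (ℕ × ℂ)) : Prop := ∀ q, q <+: p → ∃ c : ℂ, Tendsto (trunc q) atTop (𝓝 c)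

lemma dec {n : ℕ} (hn : 1 ≤ n) (p : List (ℕ × ℂ)) : Ru n p → Cv p →
    ∃ (κ : Type) (_ : Fintype κ) (C h : κ → ℕ → ℂ), (∀ ν, Ff p.length (h ν)) ∧
      (∀ m L, m + 1 ≤ L → R p m L = ∑ ν, C ν L * h ν m) ∧ ∀ ν, ∃ c : ℂ, Tendsto (C ν) atTop (𝓝 c) := by
  induction p using List.reverseRecOn with
  | nil =>
    intro _ _
    exact ⟨Unit, inferInstance, fun _ _ => 1, fun _ _ => 1, fun _ => Ff.const 1,
      fun m L _ => by simp [R], fun _ => ⟨1, tendsto_const_nhds⟩⟩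
  | append_singleton p y ih =>
    intro hr hc
    obtain ⟨κ, i1, C, h, h1, h2, h3⟩ := ih (fun x hx => hr x (List.mem_append_left _ hx))
      (fun q hq => hc q (hq.trans (List.prefix_append _ _)))
    have hy : y.2 ^ n = 1 := hr y (by simp)
    refine ⟨Option κ, inferInstance, fun o => o.elim (trunc (p ++ [y])) C,
      fun o => o.elim (fun _ => 1) fun ν m => -∑ j ∈ Ico 1 (m + 1), y.2 ^ j / (j : ℂ) ^ y.1 * h ν j,
      fun o => ?_, fun m L hm => ?_, fun o => ?_⟩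
    · cases o with
      | none => exact (Ff.const 1).mono (Nat.zero_le _)
      | some ν =>
        have h4 := (((Ff.letter hn hy y.1).mul (h1 ν)).psum 1).neg
        rw [Nat.zero_add] at h4
        rw [List.length_append, List.length_singleton]
        exact h4
    · rw [Fintype.sum_option]
      have e1 : ∀ m L, m + 1 ≤ L → R (p ++ [y]) m L =
          ∑ ν, C ν L * ∑ j ∈ Ico (m + 1) L, y.2 ^ j / (j : ℂ) ^ y.1 * h ν j := by
        intro m L hm
        rw [R_snoc]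
        simp only [mul_sum]
        rw [sum_comm]
        refine sum_congr rfl fun j hj => ?_
        rw [h2 j L (by have := (mem_Ico.1 hj).2; omega), mul_sum]
        exact sum_congr rfl fun ν _ => by ring
      have e2 : trunc (p ++ [y]) L = ∑ ν, C ν L * ∑ j ∈ Ico 1 L, y.2 ^ j / (j : ℂ) ^ y.1 * h ν j := by
        rw [← R_zero]
        exact e1 0 L (by omega)
      rw [e1 m L hm]
      simp only [Option.elim]
      rw [mul_one, e2, ← sum_add_distrib]
      refine sum_congr rfl fun ν _ => ?_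
      rw [← sum_Ico_consecutive _ (show 1 ≤ m + 1 by omega) hm]
      ring
    · cases o with
      | none => exact hc _ List.prefix_rfl
      | some ν => exact h3 ν

lemma Cl.mono {σ σ' : ℕ} (h : σ ≤ σ') {E : ℕ → ℂ} (hE : Cl σ E) : Cl σ' E := by
  obtain ⟨κ, i1, a, φ, h1, h2⟩ := hE
  exact ⟨κ, i1, a, φ, fun ν => (h1 ν).mono h, fun s hs => h2 s (h.trans hs)⟩

lemma Cl.of_Ff {d : ℕ} {θ : ℕ → ℂ} (hθ : Ff d θ) (b : ℕ) : ∃ E : ℕ → ℂ, Cl (d + 2) E ∧
    ∀ s, d + 2 ≤ s → Tendsto (fun L => ∑ l ∈ Ico 1 L, θ l / (l : ℂ) ^ (s + b)) atTop (𝓝 (E s)) := by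
  obtain ⟨κ, i1, a, φ, B, hB, h1, h2⟩ := hθ
  set ψ : κ → ℕ → ℚ := fun ν n => φ ν (n + 1) / ((n : ℚ) + 1) ^ b with hψ
  have hS : ∀ ν, Sm (d + 2) (ψ ν) := by
    intro ν
    have h0 : Summable fun n : ℕ => B * 2 ^ d * (1 / ((n : ℝ) + 1) ^ 2) := by
      have h1 := (summable_nat_add_iff 1).2 (Real.summable_one_div_nat_pow.2 (by norm_num : 1 < 2))
      refine (h1.congr fun n => ?_).mul_left _
      push_cast
      rfl
    refine Summable.of_nonneg_of_le (fun n => by positivity) (fun n => ?_) h0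
    have hn : (0 : ℝ) ≤ (n : ℝ) := Nat.cast_nonneg n
    have h3 : |(ψ ν n : ℝ)| ≤ B * 2 ^ d * ((n : ℝ) + 1) ^ d := by
      rw [hψ]
      push_cast
      rw [abs_div, abs_of_nonneg (show (0 : ℝ) ≤ ((n : ℝ) + 1) ^ b by positivity)]
      have h4 := h1 ν (n + 1)
      push_cast at h4
      calc |(φ ν (n + 1) : ℝ)| / ((n : ℝ) + 1) ^ b ≤ |(φ ν (n + 1) : ℝ)| :=
            div_le_self (abs_nonneg _) (one_le_pow₀ (by linarith))
        _ ≤ B * ((n : ℝ) + 1 + 1) ^ d := h4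
        _ ≤ B * (2 * ((n : ℝ) + 1)) ^ d := by
            refine mul_le_mul_of_nonneg_left (pow_le_pow_left₀ (by positivity) (by linarith) _) hB
        _ = _ := by rw [mul_pow]; ring
    rw [div_le_iff₀ (by positivity)]
    calc |(ψ ν n : ℝ)| ≤ B * 2 ^ d * ((n : ℝ) + 1) ^ d := h3
      _ = B * 2 ^ d * (1 / ((n : ℝ) + 1) ^ 2) * ((n : ℝ) + 1) ^ (d + 2) := by
          rw [pow_add]
          field_simp
  refine ⟨fun s => ∑ ν, a ν * (dr (ψ ν) s : ℂ), ⟨κ, i1, a, ψ, hS, fun s _ => rfl⟩, fun s hs => ?_⟩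
  have h3 : ∀ L : ℕ, ∑ l ∈ Ico 1 (L + 1), θ l / (l : ℂ) ^ (s + b) =
      ∑ ν, a ν * ((∑ n ∈ range L, (ψ ν n : ℝ) / ((n : ℝ) + 1) ^ s : ℝ) : ℂ) := by
    intro L
    rw [sum_Ico_eq_sum_range]
    simp only [Nat.add_sub_cancel]
    simp only [Complex.ofReal_sum, mul_sum]
    rw [sum_comm]
    refine sum_congr rfl fun n _ => ?_
    rw [h2, sum_div]
    refine sum_congr rfl fun ν _ => ?_
    rw [hψ, add_comm 1 n]
    push_cast
    rw [pow_add]
    field_simp
  rw [← tendsto_add_atTop_iff_nat 1]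
  simp only [h3]
  refine tendsto_finsetSum _ fun ν _ => Tendsto.const_mul _ ?_
  exact (Complex.continuous_ofReal.tendsto _).comp (summ hs (hS ν)).hasSum.tendsto_sum_nat

/-- the value of a list of arguments -/
noncomputable def li (w : List (ℕ × ℂ)) : ℂ := limUnder atTop (trunc w)

theorem Cl_li {n : ℕ} (hn : 1 ≤ n) (p u : List (ℕ × ℂ)) (b : ℕ) (z : ℂ) (hz : z ^ n = 1)
    (hp : Ru n p) (hc : Cv p) (hu : Ru n u) :
    Cl (p.length + u.length + 2) fun s => li (p ++ (s + b, z) :: u) := by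
  obtain ⟨κ, i1, C, h, h1, h2, h3⟩ := dec hn p hp hc
  choose c hcl using h3
  have hθ : ∀ ν, Ff (p.length + u.length) fun l => z ^ l * trunc u l * h ν l := by
    intro ν
    have h4 := ((Ff.root hn hz).mul (Ff_trunc hn u hu)).mul (h1 ν)
    rw [Nat.zero_add, Nat.add_comm] at h4
    exact h4
  choose E hE hlim using fun ν => Cl.of_Ff (hθ ν) b
  have hsum : Cl (p.length + u.length + 2) fun s => ∑ ν, c ν * E ν s := by
    classical
    have h5 : ∀ S : Finset κ, Cl (p.length + u.length + 2) fun s => ∑ ν ∈ S, c ν * E ν s := by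
      intro S
      induction S using Finset.induction_on with
      | empty =>
        refine (Cl.smul 0 (Cl.one _)).congr fun s _ => ?_
        simp
      | insert ν S hν ih =>
        exact (((hE ν).smul (c ν)).add ih).congr fun s _ => sum_insert hν
    exact h5 univ
  refine hsum.congr fun s hs => ?_
  refine Tendsto.limUnder_eq ?_
  have h6 : ∀ L, 1 ≤ L → trunc (p ++ (s + b, z) :: u) L =
      ∑ ν, C ν L * ∑ l ∈ Ico 1 L, (z ^ l * trunc u l * h ν l) / (l : ℂ) ^ (s + b) := by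
    intro L _
    rw [trunc_app]
    simp only [mul_sum]
    rw [sum_comm]
    refine sum_congr rfl fun l hl => ?_
    rw [h2 l L (by have := (mem_Ico.1 hl).2; omega), mul_sum]
    exact sum_congr rfl fun ν _ => by ring
  refine Tendsto.congr' ?_ (tendsto_finsetSum univ fun ν _ => (hcl ν).mul (hlim ν s hs))
  filter_upwards [eventually_ge_atTop 1] with L hL
  exact (h6 L hL).symm

end Pool.Agent.X90.DM
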